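import Mathlib
import Pool.Agent.W5h22.RB.L4

set_option autoImplicit false

/-! The dual local inequality. -/

namespace Pool.Agent.W5h22.DS
open Finset
open Pool.Agent.W5h22.RB

open Classical in
/-- the dual local inequality with constant `A` modulo `n` -/
def LD (K n : ℕ) [NeZero n] (A : ℝ) : Prop := ∀ g : ZMod n → ℝ, (∀ s, 0 ≤ g s) →
    E (fun s => if IsUnit s then (P 1 g s) ^ (2 * (K + 1)) else 0) ≤ ((n.totient : ℝ) / n) * A * (E (fun t => g t ^ 2)) ^ (K + 1)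

section pp
variable {l k : ℕ} [NeZero (l ^ k)]

lemma rho_ge (hl : l.Prime) : (1 / 2 : ℝ) ≤ (((l ^ k).totient : ℝ) / ((l ^ k : ℕ) : ℝ)) := by
  have hn : (0 : ℝ) < ((l ^ k : ℕ) : ℝ) := n_pos
  have h2 := (tot_pp hl k).2
  rw [div_le_div_iff₀ (by norm_num) hn]
  linarith

lemma LD_crude (hl : l.Prime) (K : ℕ) : LD K (l ^ k) (2 * CK K) := by
  classical
  intro g h0
  have h1 := crude' (k := k) hl K 1 le_rfl g h0
  rw [Nat.cast_one, one_pow, mul_one] at h1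
  have h2 : E (fun s => if IsUnit s then (P 1 g s) ^ (2 * (K + 1)) else 0) ≤ E (fun s => (P 1 g s) ^ (2 * (K + 1))) := by
    apply E_mono
    intro s
    split_ifs
    · exact le_rfl
    · exact pow_nonneg (P_nonneg 1 g h0 s) _
  have h3 := rho_ge (k := k) hl
  have hCK := CK_pos K
  have h4 : 0 ≤ E (fun t => g t ^ 2) := E_nonneg _ (fun _ => sq_nonneg _)
  refine (h2.trans h1).trans ?_
  apply mul_le_mul_of_nonneg_right _ (by positivity)
  nlinarith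

/-- the constant of the dual inequality for large primes -/
noncomputable def DM (K : ℕ) : ℝ := 32 * ((K + 1 : ℕ) : ℝ) ^ 2

theorem LD_good (hl : l.Prime) (hl2 : l ≠ 2) (K : ℕ) (hD : 16 * 4 ^ (K + 1) * (1 + CS K) ≤ l) : LD K (l ^ k) (1 + DM K / (l : ℝ) ^ 2) := by
  classical
  intro g h0
  have hn : (0 : ℝ) < ((l ^ k : ℕ) : ℝ) := n_pos
  have hφ : (0 : ℝ) < ((l ^ k).totient : ℝ) := tot_pos _
  have h2n := (tot_pp hl k).2
  have hl0 : (0 : ℝ) < l := by exact_mod_cast hl.pos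
  have hl1 : (1 : ℝ) ≤ l := by exact_mod_cast hl.one_lt.le
  have hCS := CS_pos K
  have hcu : (#(univ.filter (fun s : ZMod (l ^ k) => IsUnit s)) : ℝ) = ((l ^ k).totient : ℝ) := by
    rw [← ZMod.card_units_eq_totient, ← card_univ]
    have h1 : univ.filter (fun s : ZMod (l ^ k) => IsUnit s) = Finset.image (Units.val : (ZMod (l ^ k))ˣ → ZMod (l ^ k)) univ := by
      ext s
      rw [mem_filter, mem_image]
      constructor
      · rintro ⟨_, u, hu⟩; exact ⟨u, mem_univ _, hu⟩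
      · rintro ⟨u, _, hu⟩; exact ⟨mem_univ _, u, hu⟩
    rw [h1, card_image_of_injective _ Units.val_injective]
  have hcn : (l : ℝ) * #(univ.filter (fun c : ZMod (l ^ k) => ¬ IsUnit c)) ≤ ((l ^ k : ℕ) : ℝ) := by
    have h1 := nonunit_sum (l := l) (k := k) hl (fun _ => (1 : ℝ)) (fun _ => zero_le_one)
    simp only [sum_const, nsmul_eq_mul, mul_one, card_univ, ZMod.card] at h1
    exact h1
  set n : ℝ := ((l ^ k : ℕ) : ℝ) with hnd
  set φ : ℝ := ((l ^ k).totient : ℝ) with hφd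
  set m := K + 1 with hm
  have hm0 : (0 : ℝ) < (m : ℝ) := by rw [hm]; positivity
  set c : ℝ := E g with hc
  have hc0 : 0 ≤ c := E_nonneg _ h0
  set f : ZMod (l ^ k) → ℝ := fun s => g s - c with hf
  have hf0 : ∑ s, f s = 0 := by
    simp only [hf]
    rw [sum_sub_distrib, sum_const, card_univ, ZMod.card, nsmul_eq_mul, ← hnd, hc]
    unfold E
    rw [← hnd, mul_div_cancel₀ _ hn.ne', sub_self]
  set V := E (fun s => f s ^ 2) with hV
  have hV0 : 0 ≤ V := E_nonneg _ (fun _ => sq_nonneg _)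
  have hg2 : E (fun t => g t ^ 2) = c ^ 2 + V := by
    have h1 : ∀ t, g t ^ 2 = (c ^ 2 + 2 * c * f t) + f t ^ 2 := by intro t; simp only [hf]; ring
    simp_rw [h1]
    rw [E_add, E_add, E_const, E_mul]
    have h2 : E f = 0 := by unfold E; rw [hf0, zero_div]
    rw [h2, mul_zero, add_zero, ← hV]
  have hPg : ∀ s, P 1 g s = c + P 1 f s := by
    intro s
    unfold P
    simp only [hf, Nat.cast_one, one_mul]
    rw [sum_sub_distrib, sum_const, card_univ, ZMod.card, nsmul_eq_mul, ← hnd]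
    field_simp
    ring
  have hP2 : E (fun t => P 1 f t ^ 2) ≤ V / l := by
    rw [le_div_iff₀ hl0, mul_comm]
    exact l2 hl hl2 f hf0
  have hPK := small (k := k) hl hl2 K f hf0
  rw [← hV] at hPK
  have hEP : ∑ s, P 1 f s = 0 := by
    have h1 : ∑ s, P 1 f s = ∑ s, (∑ c : ZMod (l ^ k), f (s + c ^ 2)) / n := by
      apply sum_congr rfl; intro s _; unfold P; simp only [Nat.cast_one, one_mul]; rfl
    rw [h1, ← sum_div, sum_comm]
    have h2 : ∀ v : ZMod (l ^ k), ∑ s, f (s + v ^ 2) = 0 := by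
      intro v
      rw [← hf0]
      exact Equiv.sum_comp (Equiv.addRight (v ^ 2)) f
    simp_rw [h2]
    simp
  -- the linear term
  set U := univ.filter (fun s : ZMod (l ^ k) => IsUnit s) with hU
  set N := univ.filter (fun s : ZMod (l ^ k) => ¬ IsUnit s) with hN
  have hlin : ∑ s ∈ U, P 1 f s ≤ (n / l) * Real.sqrt V := by
    have h1 : ∑ s ∈ U, P 1 f s = - ∑ s ∈ N, P 1 f s := by
      have := sum_filter_add_sum_filter_not univ (fun s : ZMod (l ^ k) => IsUnit s) (fun s => P 1 f s)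
      rw [hEP] at this
      linarith
    rw [h1]
    have h2 : (∑ s ∈ N, P 1 f s) ^ 2 ≤ ((n / l) * Real.sqrt V) ^ 2 := by
      have h3 : (∑ s ∈ N, P 1 f s) ^ 2 ≤ #N * ∑ s ∈ N, P 1 f s ^ 2 := sq_sum_le_card_mul_sum_sq
      have h4 : ∑ s ∈ N, P 1 f s ^ 2 ≤ ∑ s, P 1 f s ^ 2 := sum_le_sum_of_subset_of_nonneg (subset_univ _) (fun _ _ _ => sq_nonneg _)
      have h5 : ∑ s, P 1 f s ^ 2 ≤ n * (V / l) := by
        have h6 := hP2
        unfold E at h6
        rw [← hnd, div_le_iff₀ hn] at h6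
        linarith
      have h6 : (#N : ℝ) ≤ n / l := by rw [le_div_iff₀ hl0]; linarith
      rw [mul_pow, Real.sq_sqrt hV0]
      calc (∑ s ∈ N, P 1 f s) ^ 2 ≤ #N * ∑ s ∈ N, P 1 f s ^ 2 := h3
        _ ≤ (n / l) * (n * (V / l)) := mul_le_mul h6 (h4.trans h5) (sum_nonneg fun _ _ => sq_nonneg _) (by positivity)
        _ = (n / l) ^ 2 * V := by ring
    have h3 := abs_le_of_sq_le_sq h2 (by positivity)
    rw [abs_le] at h3
    linarith [h3.1]
  -- pointwise and sum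
  have hE : E (fun s => if IsUnit s then (P 1 g s) ^ (2 * m) else 0) = (∑ s ∈ U, (P 1 g s) ^ (2 * m)) / n := by
    unfold E
    rw [hU, sum_filter]
  rw [hE, hg2]
  have hpt : ∀ s ∈ U, (P 1 g s) ^ (2 * m) ≤ (c ^ (2 * m) + (2 * m * c ^ (2 * K + 1)) * P 1 f s) +
      (4 ^ m * c ^ (2 * K)) * P 1 f s ^ 2 + 4 ^ m * P 1 f s ^ (2 * m) := by
    intro s _
    rw [hPg]
    have h1 := taylor K c (P 1 f s) hc0
    refine h1.trans (le_of_eq ?_)
    rw [hm]
    push_cast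
    ring
  have hsum := sum_le_sum hpt
  rw [sum_add_distrib, sum_add_distrib, sum_add_distrib, sum_const, nsmul_eq_mul, hcu, ← mul_sum, ← mul_sum, ← mul_sum] at hsum
  have q1 : ∑ s ∈ U, P 1 f s ^ 2 ≤ n * (V / l) := by
    have h4 : ∑ s ∈ U, P 1 f s ^ 2 ≤ ∑ s, P 1 f s ^ 2 := sum_le_sum_of_subset_of_nonneg (subset_univ _) (fun _ _ _ => sq_nonneg _)
    have h6 := hP2
    unfold E at h6
    rw [← hnd, div_le_iff₀ hn] at h6
    linarith
  have q2 : ∑ s ∈ U, P 1 f s ^ (2 * m) ≤ n * (CS K / l * V ^ m) := by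
    have h4 : ∑ s ∈ U, P 1 f s ^ (2 * m) ≤ ∑ s, P 1 f s ^ (2 * m) :=
      sum_le_sum_of_subset_of_nonneg (subset_univ _) (fun _ _ _ => (even_two_mul m).pow_nonneg _)
    have h6 := hPK
    unfold E at h6
    rw [← hnd, div_le_iff₀ hn] at h6
    linarith
  have hsq : Real.sqrt V ^ 2 = V := Real.sq_sqrt hV0
  have hsq0 : 0 ≤ Real.sqrt V := Real.sqrt_nonneg V
  have p0 : 0 ≤ c ^ (2 * K) := by positivity
  have pV : 0 ≤ c ^ (2 * K) * V := by positivity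
  have pVm : 0 ≤ V ^ m := by positivity
  have e2 : c ^ (2 * m) = c ^ (2 * K) * c ^ 2 := by rw [hm, ← pow_add]; congr 1
  have e3 : c ^ (2 * K + 1) = c ^ (2 * K) * c := pow_succ _ _
  -- total
  have hphi : n ≤ 2 * φ := h2n
  have t1 : (2 * m * c ^ (2 * K + 1)) * ∑ s ∈ U, P 1 f s ≤ φ * (32 * (m : ℝ) ^ 2 * c ^ (2 * m) / l ^ 2 + (1 / 8) * (c ^ (2 * K) * V)) := by
    have h1 : (2 * m * c ^ (2 * K + 1)) * ∑ s ∈ U, P 1 f s ≤ (2 * m * c ^ (2 * K + 1)) * ((n / l) * Real.sqrt V) :=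
      mul_le_mul_of_nonneg_left hlin (by positivity)
    have h2 : (2 * m * c ^ (2 * K + 1)) * ((n / l) * Real.sqrt V) ≤ (2 * m * c ^ (2 * K + 1)) * ((2 * φ / l) * Real.sqrt V) := by
      apply mul_le_mul_of_nonneg_left _ (by positivity)
      apply mul_le_mul_of_nonneg_right _ hsq0
      exact div_le_div_of_nonneg_right hphi hl0.le
    have h3 : (2 * m * c ^ (2 * K + 1)) * ((2 * φ / l) * Real.sqrt V) = φ * c ^ (2 * K) * (4 * (m * c / l) * Real.sqrt V) := by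
      rw [e3]; ring
    have h4 : 4 * (m * c / l) * Real.sqrt V ≤ 32 * (m * c / l) ^ 2 + (1 / 8) * V := by
      have h5 := sq_nonneg (16 * (m * c / l) - Real.sqrt V)
      have h6 : (16 * (m * c / l) - Real.sqrt V) ^ 2 = 256 * (m * c / l) ^ 2 - 32 * (m * c / l) * Real.sqrt V + Real.sqrt V ^ 2 := by ring
      rw [h6, hsq] at h5
      linarith
    have h5 : φ * c ^ (2 * K) * (4 * (m * c / l) * Real.sqrt V) ≤ φ * c ^ (2 * K) * (32 * (m * c / l) ^ 2 + (1 / 8) * V) :=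
      mul_le_mul_of_nonneg_left h4 (by positivity)
    have h6 : φ * c ^ (2 * K) * (32 * (m * c / l) ^ 2 + (1 / 8) * V) = φ * (32 * (m : ℝ) ^ 2 * c ^ (2 * m) / l ^ 2 + (1 / 8) * (c ^ (2 * K) * V)) := by
      rw [e2]; ring
    linarith
  have t2 : (4 ^ m * c ^ (2 * K)) * ∑ s ∈ U, P 1 f s ^ 2 ≤ φ * ((2 * 4 ^ m / l) * (c ^ (2 * K) * V)) := by
    have h1 := mul_le_mul_of_nonneg_left q1 (show 0 ≤ 4 ^ m * c ^ (2 * K) by positivity)
    have h2 : (4 ^ m * c ^ (2 * K)) * (n * (V / l)) ≤ (4 ^ m * c ^ (2 * K)) * (2 * φ * (V / l)) := by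
      apply mul_le_mul_of_nonneg_left _ (by positivity)
      exact mul_le_mul_of_nonneg_right hphi (by positivity)
    refine (h1.trans h2).trans (le_of_eq ?_)
    ring
  have t3 : (4 : ℝ) ^ m * ∑ s ∈ U, P 1 f s ^ (2 * m) ≤ φ * ((2 * 4 ^ m * CS K / l) * V ^ m) := by
    have h1 := mul_le_mul_of_nonneg_left q2 (show (0 : ℝ) ≤ 4 ^ m by positivity)
    have h2 : (4 : ℝ) ^ m * (n * (CS K / l * V ^ m)) ≤ 4 ^ m * (2 * φ * (CS K / l * V ^ m)) := by
      apply mul_le_mul_of_nonneg_left _ (by positivity)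
      exact mul_le_mul_of_nonneg_right hphi (by positivity)
    refine (h1.trans h2).trans (le_of_eq ?_)
    ring
  have s1 : 2 * 4 ^ m / (l : ℝ) ≤ 1 / 8 := by
    rw [div_le_div_iff₀ hl0 (by norm_num)]
    have : 16 * 4 ^ m * (1 + CS K) = 16 * 4 ^ m + 16 * 4 ^ m * CS K := by ring
    have h3 : (0 : ℝ) ≤ 16 * 4 ^ m * CS K := by positivity
    linarith
  have s2 : 2 * 4 ^ m * CS K / (l : ℝ) ≤ 1 / 8 := by
    rw [div_le_div_iff₀ hl0 (by norm_num)]
    have : 16 * 4 ^ m * (1 + CS K) = 16 * 4 ^ m + 16 * 4 ^ m * CS K := by ring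
    have h3 : (0 : ℝ) ≤ 16 * 4 ^ m := by positivity
    linarith
  have hsup := superadd K (c ^ 2) V (sq_nonneg c) hV0
  rw [← pow_mul, ← pow_mul] at hsup
  have u1 := mul_le_mul_of_nonneg_right s1 pV
  have u2 := mul_le_mul_of_nonneg_right s2 pVm
  have hD0 : 0 ≤ DM K / (l : ℝ) ^ 2 := by unfold DM; positivity
  have hfin : c ^ (2 * m) + (32 * (m : ℝ) ^ 2 * c ^ (2 * m) / l ^ 2 + (1 / 8) * (c ^ (2 * K) * V)) + (2 * 4 ^ m / l) * (c ^ (2 * K) * V) +
      (2 * 4 ^ m * CS K / l) * V ^ m ≤ (1 + DM K / (l : ℝ) ^ 2) * (c ^ 2 + V) ^ m := by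
    have h1 := mul_le_mul_of_nonneg_left hsup (show 0 ≤ 1 + DM K / (l : ℝ) ^ 2 by linarith)
    have h2 : 32 * (m : ℝ) ^ 2 * c ^ (2 * m) / l ^ 2 = DM K / (l : ℝ) ^ 2 * c ^ (2 * m) := by
      unfold DM; ring
    have h3 : 0 ≤ DM K / (l : ℝ) ^ 2 * (1 / 2 * (c ^ (2 * K) * V + V ^ m)) := by positivity
    rw [h2]
    have h4 : (1 + DM K / (l : ℝ) ^ 2) * (c ^ (2 * m) + 1 / 2 * (c ^ (2 * K) * V + V ^ m)) =
        c ^ (2 * m) + DM K / (l : ℝ) ^ 2 * c ^ (2 * m) + 1 / 2 * (c ^ (2 * K) * V) + 1 / 2 * V ^ m +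
        DM K / (l : ℝ) ^ 2 * (1 / 2 * (c ^ (2 * K) * V + V ^ m)) := by ring
    have h5 : (1 + DM K / (l : ℝ) ^ 2) * (c ^ (2 * m) + 1 / 2 * (c ^ (2 * K) * V + V ^ m)) ≤ (1 + DM K / (l : ℝ) ^ 2) * (c ^ 2 + V) ^ m := h1
    rw [h4] at h5
    linarith
  rw [div_le_iff₀ hn]
  calc ∑ s ∈ U, (P 1 g s) ^ (2 * m) ≤ φ * (c ^ (2 * m) + (32 * (m : ℝ) ^ 2 * c ^ (2 * m) / l ^ 2 + (1 / 8) * (c ^ (2 * K) * V)) + (2 * 4 ^ m / l) * (c ^ (2 * K) * V) +
      (2 * 4 ^ m * CS K / l) * V ^ m) := by linarith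
    _ ≤ φ * ((1 + DM K / (l : ℝ) ^ 2) * (c ^ 2 + V) ^ m) := mul_le_mul_of_nonneg_left hfin hφ.le
    _ = φ / n * (1 + DM K / (l : ℝ) ^ 2) * (c ^ 2 + V) ^ m * n := by field_simp

end pp

end Pool.Agent.W5h22.DS
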