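import Mathlib
import Pool.Agent.W5h22.DS.A

set_option autoImplicit false

/-! The dual local inequality for all moduli with one constant. -/

namespace Pool.Agent.W5h22.DS
open Finset
open Pool.Agent.W5h22.RB

lemma LD_mono {n : ℕ} [NeZero n] (K : ℕ) (A B : ℝ) (hAB : A ≤ B) (h : LD K n A) : LD K n B := by
  intro g h0
  refine (h g h0).trans ?_
  have h1 := tot_pos n
  have h2 : (0 : ℝ) < n := n_pos
  have h4 : 0 ≤ E (fun t => g t ^ 2) := E_nonneg _ (fun _ => sq_nonneg _)
  apply mul_le_mul_of_nonneg_right _ (by positivity)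
  exact mul_le_mul_of_nonneg_left hAB (by positivity)

section mul
variable {a b : ℕ} [NeZero a] [NeZero b] [NeZero (a * b)]

theorem LD_mul (hab : a.Coprime b) (K : ℕ) (A B : ℝ) (hA : 0 ≤ A) (hB : 0 ≤ B) (h1 : LD K a A) (h2 : LD K b B) :
    LD K (a * b) (A * B) := by
  classical
  intro g h0
  set e := (ZMod.chineseRemainder hab).symm with he
  have hφa : (0 : ℝ) < a.totient := tot_pos a
  have hφb : (0 : ℝ) < b.totient := tot_pos b
  have ha0 : (0 : ℝ) < a := n_pos
  have hb0 : (0 : ℝ) < b := n_pos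
  have hsum : ∀ g : ZMod (a * b) → ℝ, ∑ t, g t = ∑ t₁ : ZMod a, ∑ t₂ : ZMod b, g (e (t₁, t₂)) := by
    intro g
    rw [← Fintype.sum_prod_type (f := fun x : ZMod a × ZMod b => g (e x))]
    exact (e.toEquiv.sum_comp g).symm
  have hunit : ∀ s₁ : ZMod a, ∀ s₂ : ZMod b, IsUnit (e (s₁, s₂)) ↔ IsUnit s₁ ∧ IsUnit s₂ := by
    intro s₁ s₂
    exact (MulEquiv.isUnit_map e).trans Prod.isUnit_iff
  have htot : ((a * b).totient : ℝ) = a.totient * b.totient := by
    rw [Nat.totient_mul hab]; push_cast; ring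
  set m := K + 1 with hm
  set G : ZMod b → ZMod a → ℝ := fun s₂ t₁ => (∑ c₂ : ZMod b, g (e (t₁, s₂ + c₂ ^ 2))) / b with hG
  have hG0 : ∀ s₂ t₁, 0 ≤ G s₂ t₁ := fun s₂ t₁ => div_nonneg (sum_nonneg fun _ _ => h0 _) hb0.le
  have key : ∀ s₁ s₂, P 1 g (e (s₁, s₂)) = P 1 (G s₂) s₁ := by
    intro s₁ s₂
    unfold P
    simp only [Nat.cast_one, one_mul]
    rw [hsum]
    simp only [hG]
    rw [← sum_div, div_div]
    congr 1
    · apply sum_congr rfl
      intro c₁ _
      apply sum_congr rfl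
      intro c₂ _
      rw [← map_pow, ← map_add]
      rfl
    · push_cast; ring
  rw [E_prod hab]
  have e2 : E (fun s₁ : ZMod a => E (fun s₂ : ZMod b => if IsUnit (e (s₁, s₂)) then (P 1 g (e (s₁, s₂))) ^ (2 * m) else 0)) =
      E (fun s₂ : ZMod b => E (fun s₁ : ZMod a => if IsUnit (e (s₁, s₂)) then (P 1 (G s₂) s₁) ^ (2 * m) else 0)) := by
    unfold E
    rw [← sum_div, ← sum_div, sum_comm, div_right_comm]
    simp_rw [key]
  rw [e2]
  set X : ZMod a → ZMod b → ℝ := fun t₁ s₂ => if IsUnit s₂ then G s₂ t₁ ^ 2 / a else 0 with hX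
  have e3 : ∀ s₂ : ZMod b, E (fun s₁ : ZMod a => if IsUnit (e (s₁, s₂)) then (P 1 (G s₂) s₁) ^ (2 * m) else 0) ≤
      ((a.totient : ℝ) / a * A) * (∑ t₁, X t₁ s₂) ^ m := by
    intro s₂
    by_cases hs : IsUnit s₂
    · have h3 : (fun s₁ : ZMod a => if IsUnit (e (s₁, s₂)) then (P 1 (G s₂) s₁) ^ (2 * m) else 0) =
          (fun s₁ : ZMod a => if IsUnit s₁ then (P 1 (G s₂) s₁) ^ (2 * m) else 0) := by
        funext s₁
        by_cases h : IsUnit s₁
        · rw [if_pos h, if_pos ((hunit s₁ s₂).2 ⟨h, hs⟩)]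
        · rw [if_neg h, if_neg (fun h' => h ((hunit s₁ s₂).1 h').1)]
      rw [h3]
      have h4 := h1 (G s₂) (hG0 s₂)
      have h5 : ∑ t₁, X t₁ s₂ = E (fun t => G s₂ t ^ 2) := by
        simp only [hX, if_pos hs]
        unfold E
        rw [← sum_div]
      rw [h5]
      exact h4
    · have h3 : (fun s₁ : ZMod a => if IsUnit (e (s₁, s₂)) then (P 1 (G s₂) s₁) ^ (2 * m) else 0) = fun _ => 0 := by
        funext s₁
        rw [if_neg (fun h' => hs ((hunit s₁ s₂).1 h').2)]
      rw [h3, E_const]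
      have h5 : ∑ t₁, X t₁ s₂ = 0 := by
        simp only [hX, if_neg hs]
        simp
      rw [h5, hm, zero_pow (by omega), mul_zero]
  refine (E_mono _ _ e3).trans ?_
  rw [E_mul]
  have hmk := mink (univ : Finset (ZMod a)) X
    (fun t₁ => E (fun t₂ : ZMod b => g (e (t₁, t₂)) ^ 2) / a)
    (fun t₁ _ s₂ => by simp only [hX]; split_ifs <;> positivity)
    (fun t₁ _ => div_nonneg (E_nonneg _ fun _ => sq_nonneg _) ha0.le) K ((b.totient : ℝ) / b * B) (by positivity) (by
      intro t₁ _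
      have h3 : ∀ s₂ : ZMod b, X t₁ s₂ ^ (K + 1) = (1 / (a : ℝ)) ^ (K + 1) *
          (if IsUnit s₂ then (P 1 (fun t₂ : ZMod b => g (e (t₁, t₂))) s₂) ^ (2 * (K + 1)) else 0) := by
        intro s₂
        simp only [hX]
        split_ifs with hs
        · have h4 : P 1 (fun t₂ : ZMod b => g (e (t₁, t₂))) s₂ = G s₂ t₁ := by
            unfold P
            simp only [hG, Nat.cast_one, one_mul]
          rw [h4, pow_mul, ← mul_pow]
          congr 1
          ring
        · rw [zero_pow (by omega), mul_zero]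
      simp_rw [h3]
      rw [E_mul]
      have h4 := h2 (fun t₂ => g (e (t₁, t₂))) (fun _ => h0 _)
      refine (mul_le_mul_of_nonneg_left h4 (by positivity)).trans (le_of_eq ?_)
      generalize E (fun t₂ : ZMod b => g (e (t₁, t₂)) ^ 2) = Y
      have h6 : (Y / (a : ℝ)) ^ (K + 1) = Y ^ (K + 1) * (1 / (a : ℝ)) ^ (K + 1) := by
        rw [← mul_pow, mul_one_div]
      rw [h6]; ring)
  refine (mul_le_mul_of_nonneg_left hmk (by positivity)).trans (le_of_eq ?_)
  have h7 : ∑ t₁ : ZMod a, E (fun t₂ : ZMod b => g (e (t₁, t₂)) ^ 2) / a = E (fun t => g t ^ 2) := by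
    rw [E_prod hab (fun t => g t ^ 2)]
    rw [← sum_div]
    rfl
  rw [h7, htot, ← hm]
  push_cast
  field_simp

end mul

/-- the constant at a prime -/
noncomputable def Bd (K l : ℕ) : ℝ := if l ≠ 2 ∧ 16 * 4 ^ (K + 1) * (1 + CS K) ≤ l then 1 + DM K / (l : ℝ) ^ 2 else 2 * CK K

lemma DM_pos (K : ℕ) : 0 < DM K := by unfold DM; positivity

lemma Bd_one (K l : ℕ) : 1 ≤ Bd K l := by
  unfold Bd
  have := DM_pos K
  split_ifs
  · have h1 : 0 ≤ DM K / (l : ℝ) ^ 2 := by positivity
    linarith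
  · have h1 := one_le_CK K
    linarith

lemma LD_pp {l k : ℕ} [NeZero (l ^ k)] (hl : l.Prime) (K : ℕ) : LD K (l ^ k) (Bd K l) := by
  unfold Bd
  split_ifs with h
  · exact LD_good hl h.1 K h.2
  · exact LD_crude hl K

theorem LD_all (K n : ℕ) : ∀ _ : NeZero n, LD K n (∏ l ∈ n.primeFactors, Bd K l) := by
  classical
  induction n using Nat.recOnPrimeCoprime with
  | zero => intro hn; exact absurd rfl hn.out
  | prime_pow p k hp =>
    intro hn
    rcases Nat.eq_zero_or_pos k with rfl | hk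
    · refine LD_mono K 1 _ ?_ ?_
      · simp
      · intro g h0
        have hs : Subsingleton (ZMod (p ^ 0)) := by rw [pow_zero]; infer_instance
        have h1 : ∀ g : ZMod (p ^ 0) → ℝ, ∑ s, g s = g 0 := by
          intro g
          rw [Finset.sum_eq_single 0]
          · intro b _ hb; exact absurd (Subsingleton.elim b 0) hb
          · intro h; exact absurd (mem_univ _) h
        unfold E P
        rw [h1, h1, h1]
        have h2 : (0 : ZMod (p ^ 0)) + ((1 : ℕ) : ZMod (p ^ 0)) * 0 ^ 2 = 0 := Subsingleton.elim _ _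
        rw [h2, if_pos (isUnit_of_subsingleton _)]
        simp [pow_mul]
    · rw [Nat.primeFactors_prime_pow (by omega) hp, prod_singleton]
      exact LD_pp hp K
  | coprime a b ha hb hab iha ihb =>
    intro hn
    have ha' : NeZero a := ⟨by omega⟩
    have hb' : NeZero b := ⟨by omega⟩
    rw [Nat.Coprime.primeFactors_mul hab, prod_union (Nat.Coprime.disjoint_primeFactors hab)]
    exact LD_mul hab K _ _ (prod_nonneg fun l _ => zero_le_one.trans (Bd_one K l))
      (prod_nonneg fun l _ => zero_le_one.trans (Bd_one K l)) (iha ha') (ihb hb')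

theorem dual_local (K : ℕ) : ∃ A : ℝ, 1 ≤ A ∧ ∀ n : ℕ, ∀ hn : NeZero n, LD K n A := by
  have hD := DM_pos K
  have hC := one_le_CK K
  have hCS := CS_pos K
  set D0 : ℝ := 16 * 4 ^ (K + 1) * (1 + CS K) with hD0
  set L0 : ℕ := ⌈D0⌉₊ + 3 with hL0
  set Ab : ℝ := 2 * CK K with hAb
  have hAb1 : 1 ≤ Ab := by linarith
  set T : ℝ := ∑' n : ℕ, 1 / (n : ℝ) ^ 2 with hT
  have hsumm : Summable (fun n : ℕ => 1 / (n : ℝ) ^ 2) := Real.summable_one_div_nat_pow.2 (by norm_num)
  have hT0 : 0 ≤ T := tsum_nonneg fun n => by positivity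
  refine ⟨Ab ^ L0 * Real.exp (DM K * T), ?_, ?_⟩
  · have h1 : 1 ≤ Ab ^ L0 := one_le_pow₀ hAb1
    have h2 : 1 ≤ Real.exp (DM K * T) := Real.one_le_exp (by positivity)
    nlinarith
  intro n hn
  refine LD_mono K _ _ ?_ (LD_all K n hn)
  have h1 : ∀ l ∈ n.primeFactors, Bd K l ≤ (if l < L0 then Ab else 1) * Real.exp (DM K * (1 / (l : ℝ) ^ 2)) := by
    intro l hl
    have hlp := Nat.prime_of_mem_primeFactors hl
    have hexp : 1 + DM K / (l : ℝ) ^ 2 ≤ Real.exp (DM K * (1 / (l : ℝ) ^ 2)) := by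
      have := Real.add_one_le_exp (DM K * (1 / (l : ℝ) ^ 2))
      rw [mul_one_div] at this ⊢
      linarith
    have hexp1 : 1 ≤ Real.exp (DM K * (1 / (l : ℝ) ^ 2)) := Real.one_le_exp (by positivity)
    unfold Bd
    split_ifs with h h' h'
    · nlinarith
    · linarith
    · nlinarith
    · exfalso
      apply h
      constructor
      · omega
      · have h3 : (⌈D0⌉₊ : ℝ) ≤ l := by exact_mod_cast (by omega : ⌈D0⌉₊ ≤ l)
        exact (Nat.le_ceil _).trans h3
  refine (prod_le_prod (fun l _ => zero_le_one.trans (Bd_one K l)) h1).trans ?_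
  rw [prod_mul_distrib]
  apply mul_le_mul
  · rw [← prod_filter, prod_const]
    apply pow_le_pow_right₀ hAb1
    calc #(n.primeFactors.filter (fun l => l < L0)) ≤ #(range L0) := by
          apply card_le_card
          intro l hl
          rw [mem_filter] at hl
          exact mem_range.2 hl.2
      _ = L0 := card_range _
  · rw [← Real.exp_sum, ← mul_sum]
    apply Real.exp_le_exp.2
    apply mul_le_mul_of_nonneg_left _ hD.le
    exact hsumm.sum_le_tsum _ (fun _ _ => by positivity)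
  · exact prod_nonneg fun _ _ => (Real.exp_pos _).le
  · positivity

open Classical in
/-- the form with `σ - c²` -/
theorem LD_neg {n : ℕ} [NeZero n] {K : ℕ} {A : ℝ} (h : LD K n A) (g : ZMod n → ℝ) (h0 : ∀ s, 0 ≤ g s) :
    ∑ σ : ZMod n, (if IsUnit σ then ((∑ c, g (σ - c ^ 2)) / n) ^ (2 * (K + 1)) else 0) ≤
      (n.totient : ℝ) * A * (E (fun t => g t ^ 2)) ^ (K + 1) := by
  have h1 := h (fun s => g (-s)) (fun s => h0 _)
  have e1 : E (fun t => (fun s => g (-s)) t ^ 2) = E (fun t => g t ^ 2) := by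
    unfold E
    congr 1
    exact Equiv.sum_comp (Equiv.neg (ZMod n)) (fun s => g s ^ 2)
  rw [e1] at h1
  have hn : (0 : ℝ) < n := n_pos
  have e2 : ∑ σ : ZMod n, (if IsUnit σ then ((∑ c, g (σ - c ^ 2)) / n) ^ (2 * (K + 1)) else 0) =
      n * E (fun s => if IsUnit s then (P 1 (fun s => g (-s)) s) ^ (2 * (K + 1)) else 0) := by
    unfold E
    rw [mul_div_cancel₀ _ hn.ne', ← Equiv.sum_comp (Equiv.neg (ZMod n))]
    apply sum_congr rfl
    intro σ _
    simp only [Equiv.neg_apply, IsUnit.neg_iff]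
    split_ifs with hs
    · unfold P
      congr 2
      apply sum_congr rfl
      intro c _
      congr 1
      push_cast
      ring
    · rfl
  rw [e2]
  calc (n : ℝ) * E (fun s => if IsUnit s then (P 1 (fun s => g (-s)) s) ^ (2 * (K + 1)) else 0) ≤
      n * ((n.totient : ℝ) / n * A * (E (fun t => g t ^ 2)) ^ (K + 1)) := mul_le_mul_of_nonneg_left h1 hn.le
    _ = _ := by field_simp

end Pool.Agent.W5h22.DS
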