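import Mathlib
import Pool.Agent.W5h22.RB.T
import Pool.Agent.W5h22.DS.B

set_option autoImplicit false

/-! Almost periodicity in the mean, and one block of shifts. -/

namespace Pool.Agent.W5h22.DS
open Finset Polynomial Filter Topology
open Pool.Agent.Helper602.MK
open Pool.Agent.H373R2.NB hiding Ph
open Pool.Agent.W5h22.PV
open Pool.Agent.W5h22.RB

theorem transfer1 (B : ℕ) (hB : 1 ≤ B) (ε : ℝ) (hε : 0 < ε) : ∃ W₀ : ℕ, 1 ≤ W₀ ∧ ∃ τ : ℝ, 0 < τ ∧ ∀ᶠ N : ℕ in atTop,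
    ∀ x : ℕ, 1 ≤ x → x ^ 2 ≤ N → N ≤ B * x ^ 2 → ∀ g : ℕ → ℝ, (∀ p, |g p| ≤ 1) → ∀ e : ℤ, (e = 1 ∨ e = -1) →
      ∑ a ∈ Icc (-(N : ℤ)) N, |∑ n ∈ Icc 1 x, pw g (e * (a + (n : ℤ) ^ 2)) -
          ∑ n ∈ Icc 1 x, u g (3 * N) W₀ ⌊τ * N / W₀⌋₊ (e * (a + (n : ℤ) ^ 2))| ≤ ε * N * ((x : ℝ) / Real.log N) := by
  have hdeg : (X ^ 2 : ℤ[X]).natDegree = 2 := natDegree_X_pow 2
  have hl : 0 < (X ^ 2 : ℤ[X]).leadingCoeff := by rw [leadingCoeff_X_pow]; norm_num
  obtain ⟨W₀, hW₀, τ₀, hτ₀, k0, hk0, hsec⟩ := second (X ^ 2 : ℤ[X]) (by rw [hdeg]; norm_num) hl (7 * B) (by omega) (ε ^ 2 / 36) (by positivity)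
  set τ : ℝ := min τ₀ 1 with hτ
  have hτ0 : 0 < τ := by positivity
  have hτ1 : τ ≤ 1 := min_le_right _ _
  have hττ : τ ≤ τ₀ := min_le_left _ _
  have hW0r : (1 : ℝ) ≤ W₀ := by exact_mod_cast hW₀
  have hW0p : (0 : ℝ) < W₀ := by linarith
  refine ⟨W₀, hW₀, τ, hτ0, ?_⟩
  have hevN : ∀ᶠ N : ℕ in atTop, 2 * W₀ / τ ≤ N := tendsto_natCast_atTop_atTop.eventually_ge_atTop _
  filter_upwards [evt_sqrt_log 1 (ε / 2) (by positivity),
    hevN, eventually_ge_atTop (k0 + 4)] with N hsq hN1 hN2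
  intro x hx hx1 hNx g hg e he
  have hN3 : (3 : ℝ) ≤ N := by exact_mod_cast (by omega : 3 ≤ N)
  have hN0 : (0 : ℝ) < N := by linarith
  have hlN : 0 < Real.log N := Real.log_pos (by linarith)
  have hx0 : (0 : ℝ) < x := by exact_mod_cast hx
  have : NeZero (7 * N) := ⟨by omega⟩
  set J : ℕ := ⌊τ * N / W₀⌋₊ with hJ
  have hJle : (J : ℝ) ≤ τ * N / W₀ := Nat.floor_le (by positivity)
  have hge2 : 2 ≤ τ * N / W₀ := by
    rw [le_div_iff₀ hW0p]
    rw [div_le_iff₀ hτ0] at hN1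
    linarith
  have hJge : τ * N / W₀ / 2 ≤ J := by
    have := Nat.lt_floor_add_one (τ * N / W₀)
    rw [← hJ] at this
    linarith
  have hJ1 : 1 ≤ J := by
    have : (1 : ℝ) ≤ J := by linarith
    exact_mod_cast this
  have hJ0 : (0 : ℝ) < J := by exact_mod_cast hJ1
  have hJW : ((J * W₀ : ℕ) : ℝ) ≤ τ * N := by
    push_cast
    rw [le_div_iff₀ hW0p] at hJle
    exact hJle
  have hJWN : J * W₀ ≤ N := by
    have : ((J * W₀ : ℕ) : ℝ) ≤ N := hJW.trans (by nlinarith)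
    exact_mod_cast this
  have hs := hsec (3 * N) (by omega) (7 * N) (by omega) (by omega) x hx
    (by rw [hdeg]; nlinarith) W₀ J hJ1 dvd_rfl (by
        push_cast
        push_cast at hJW
        calc (J : ℝ) * W₀ ≤ τ * N := hJW
          _ ≤ τ₀ * (3 * N) := by nlinarith) g hg e he
  simp only [eval_pow, eval_X] at hs
  set D : ℤ → ℝ := fun a => ∑ n ∈ Icc 1 x, df W₀ J (wZ g (3 * N) (7 * N)) (((e * a : ℤ) : ZMod (7 * N)) + ((e * (n : ℤ) ^ 2 : ℤ) : ZMod (7 * N))) with hD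
  have hDsq : ∑ a ∈ Icc (-(N : ℤ)) N, D a ^ 2 ≤ 3 * (ε ^ 2 / 36) * N * (x / Real.log N) ^ 2 := by
    have h1 := sum_embed (M := 7 * N) N (by omega) e he (fun a => (∑ n ∈ Icc 1 x, df W₀ J (wZ g (3 * N) (7 * N)) (a + ((e * (n : ℤ) ^ 2 : ℤ) : ZMod (7 * N)))) ^ 2)
      (fun a => sq_nonneg _)
    refine h1.trans (hs.trans ?_)
    push_cast
    have h2 : Real.log N ≤ Real.log (3 * N) := Real.log_le_log hN0 (by linarith)
    have h3 : (x / Real.log (3 * N)) ^ 2 ≤ (x / Real.log N) ^ 2 := by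
      apply pow_le_pow_left₀ (div_nonneg hx0.le (hlN.le.trans h2))
      exact div_le_div_of_nonneg_left hx0.le hlN h2
    calc ε ^ 2 / 36 * (3 * (N : ℝ)) * (x / Real.log (3 * N)) ^ 2 ≤ ε ^ 2 / 36 * (3 * (N : ℝ)) * (x / Real.log N) ^ 2 :=
          mul_le_mul_of_nonneg_left h3 (by positivity)
      _ = _ := by ring
  set c : ℤ → ℝ := fun a => (#((Icc 1 x).filter (fun n : ℕ => 1 ≤ e * (a + (n : ℤ) ^ 2) ∧ e * (a + (n : ℤ) ^ 2) ≤ (Nat.sqrt (3 * N) : ℕ))) : ℝ) with hc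
  have hcs : ∑ a ∈ Icc (-(N : ℤ)) N, c a ≤ x * Real.sqrt (3 * N) := by
    have h1 := small_values (X ^ 2 : ℤ[X]) N (Nat.sqrt (3 * N)) x e he
    simp only [eval_pow, eval_X] at h1
    refine h1.trans ?_
    apply mul_le_mul_of_nonneg_left _ hx0.le
    calc (Nat.sqrt (3 * N) : ℝ) ≤ Real.sqrt ((3 * N : ℕ) : ℝ) := Real.nat_sqrt_le_real_sqrt
      _ = _ := by push_cast; rfl
  have hpt : ∀ a ∈ Icc (-(N : ℤ)) N, |∑ n ∈ Icc 1 x, pw g (e * (a + (n : ℤ) ^ 2)) -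
        ∑ n ∈ Icc 1 x, u g (3 * N) W₀ J (e * (a + (n : ℤ) ^ 2))| ≤ |D a| + c a := by
    intro a haN
    rw [mem_Icc] at haN
    have hFx : ∀ n ∈ Icc 1 x, |(n : ℤ) ^ 2| ≤ N := by
      intro n hn
      rw [mem_Icc] at hn
      rw [abs_of_nonneg (by positivity)]
      have : n ^ 2 ≤ x ^ 2 := Nat.pow_le_pow_left hn.2 2
      exact_mod_cast this.trans hx1
    have hv : ∀ n ∈ Icc 1 x, -(2 * N : ℤ) ≤ e * (a + (n : ℤ) ^ 2) ∧ e * (a + (n : ℤ) ^ 2) ≤ 2 * N := by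
      intro n hn
      have h1 := abs_le.1 (hFx n hn)
      rcases he with rfl | rfl <;> constructor <;> linarith [h1.1, h1.2, haN.1, haN.2]
    have hDa : D a = ∑ n ∈ Icc 1 x, (pk g (3 * N) (e * (a + (n : ℤ) ^ 2)) - u g (3 * N) W₀ J (e * (a + (n : ℤ) ^ 2))) := by
      simp only [hD]
      apply sum_congr rfl
      intro n hn
      have h1 := hv n hn
      unfold u
      rw [← df_int (M := 7 * N) g (3 * N) W₀ J (e * (a + (n : ℤ) ^ 2)) (by push_cast; linarith [h1.1]) (by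
        have h2 : ((J * W₀ : ℕ) : ℤ) ≤ N := by exact_mod_cast hJWN
        push_cast at *
        linarith [h1.2])]
      congr 1
      push_cast; ring
    have hs2 : |∑ n ∈ Icc 1 x, (pw g (e * (a + (n : ℤ) ^ 2)) - pk g (3 * N) (e * (a + (n : ℤ) ^ 2)))| ≤ c a := by
      calc _ ≤ ∑ n ∈ Icc 1 x, |pw g (e * (a + (n : ℤ) ^ 2)) - pk g (3 * N) (e * (a + (n : ℤ) ^ 2))| := abs_sum_le_sum_abs _ _
        _ ≤ ∑ n ∈ Icc 1 x, (if 1 ≤ e * (a + (n : ℤ) ^ 2) ∧ e * (a + (n : ℤ) ^ 2) ≤ (Nat.sqrt (3 * N) : ℕ) then (1 : ℝ) else 0) := by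
            apply sum_le_sum
            intro n hn
            have h1 := hv n hn
            exact pw_sub_pk g hg (3 * N) _ (by push_cast; linarith [h1.2])
        _ = c a := by
            simp only [hc]
            rw [← sum_filter, sum_const, nsmul_eq_mul, mul_one]
    have hfin : ∑ n ∈ Icc 1 x, pw g (e * (a + (n : ℤ) ^ 2)) - ∑ n ∈ Icc 1 x, u g (3 * N) W₀ J (e * (a + (n : ℤ) ^ 2)) = D a +
        ∑ n ∈ Icc 1 x, (pw g (e * (a + (n : ℤ) ^ 2)) - pk g (3 * N) (e * (a + (n : ℤ) ^ 2))) := by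
      rw [hDa, ← sum_add_distrib, ← sum_sub_distrib]
      apply sum_congr rfl
      intro n _
      ring
    rw [hfin]
    exact (abs_add_le _ _).trans (add_le_add le_rfl hs2)
  refine (sum_le_sum hpt).trans ?_
  rw [sum_add_distrib]
  have hD1 : ∑ a ∈ Icc (-(N : ℤ)) N, |D a| ≤ ε / 2 * N * (x / Real.log N) := by
    have h1 : (∑ a ∈ Icc (-(N : ℤ)) N, |D a|) ^ 2 ≤ (ε / 2 * N * (x / Real.log N)) ^ 2 := by
      calc (∑ a ∈ Icc (-(N : ℤ)) N, |D a|) ^ 2 ≤ #(Icc (-(N : ℤ)) N) * ∑ a ∈ Icc (-(N : ℤ)) N, |D a| ^ 2 := sq_sum_le_card_mul_sum_sq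
        _ = #(Icc (-(N : ℤ)) N) * ∑ a ∈ Icc (-(N : ℤ)) N, D a ^ 2 := by simp_rw [sq_abs]
        _ ≤ (3 * N) * (3 * (ε ^ 2 / 36) * N * (x / Real.log N) ^ 2) := by
            apply mul_le_mul _ hDsq (sum_nonneg fun _ _ => sq_nonneg _) (by positivity)
            rw [Int.card_Icc]
            have : ((N : ℤ) + 1 - -(N : ℤ)).toNat = 2 * N + 1 := by omega
            rw [this]
            push_cast
            linarith
        _ = _ := by ring
    exact le_of_sq_le_sq h1 (by positivity)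
  have hc1 : ∑ a ∈ Icc (-(N : ℤ)) N, c a ≤ ε / 2 * N * (x / Real.log N) := by
    refine hcs.trans ?_
    rw [one_mul] at hsq
    have h1 : Real.sqrt (3 * N) * Real.log N ≤ ε / 2 * N := by
      refine le_trans ?_ hsq
      apply mul_le_mul_of_nonneg_right _ hlN.le
      linarith
    calc (x : ℝ) * Real.sqrt (3 * N) = (Real.sqrt (3 * N) * Real.log N) * (x / Real.log N) := by field_simp
      _ ≤ (ε / 2 * N) * (x / Real.log N) := mul_le_mul_of_nonneg_right h1 (by positivity)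
  linarith

/-- the sum of the averages over the values with `y < n ≤ x` -/
noncomputable def TI (f : ℕ → ℝ) (kk W J y x : ℕ) (a : ℤ) : ℝ := ∑ n ∈ Ioc y x, u f kk W J (a + (n : ℤ) ^ 2)

lemma TI_le (f : ℕ → ℝ) (hf0 : ∀ p, 0 ≤ f p) (kk W J y x : ℕ) [NeZero W] (hJ : 2 * x + W ≤ J)
    (b : ℤ) (t : ZMod W) :
    TI f kk W J y x (W * b + (t.val : ℤ)) ≤ 2 * ∑ k ∈ Ico (y / W) (x / W + 1), ∑ c : ZMod W,
      Ph f kk W (2 * J) (b + bs W 1 k) (t + c ^ 2) := by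
  have hW : 0 < W := Nat.pos_of_ne_zero (NeZero.ne W)
  unfold TI
  have h1 : ∀ n ∈ Ioc y x, u f kk W J (W * b + (t.val : ℤ) + (n : ℤ) ^ 2) ≤
      2 * Ph f kk W (2 * J) (b + bs W 1 (n / W)) (t + ((n : ℕ) : ZMod W) ^ 2) := by
    intro n hn
    rw [mem_Ioc] at hn
    obtain ⟨h, hh, heq⟩ := shift_rep W J x hJ 1 (Or.inl rfl) b t.val n (ZMod.val_lt t) hn.2
    simp only [one_mul, Int.cast_one, ZMod.natCast_zmod_val] at heq
    rw [heq]
    exact u_shift f hf0 kk W J (by omega) _ h hh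
  refine (sum_le_sum h1).trans ?_
  rw [← mul_sum]
  apply mul_le_mul_of_nonneg_left _ (by norm_num)
  set Gf : ℕ × ZMod W → ℝ := fun z => Ph f kk W (2 * J) (b + bs W 1 z.1) (t + z.2 ^ 2) with hGf
  have h2 : ∑ n ∈ Ioc y x, Ph f kk W (2 * J) (b + bs W 1 (n / W)) (t + ((n : ℕ) : ZMod W) ^ 2) =
      ∑ z ∈ (Ioc y x).image (fun n => ((n / W, (n : ZMod W)) : ℕ × ZMod W)), Gf z := by
    rw [sum_image]
    intro a _ b _ hab
    simp only [Prod.mk.injEq] at hab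
    have h3 : a % W = b % W := (ZMod.natCast_eq_natCast_iff' a b W).1 hab.2
    rw [← Nat.div_add_mod a W, ← Nat.div_add_mod b W, hab.1, h3]
  rw [h2]
  have h3 : ∑ k ∈ Ico (y / W) (x / W + 1), ∑ c : ZMod W, Ph f kk W (2 * J) (b + bs W 1 k) (t + c ^ 2) =
      ∑ z ∈ Ico (y / W) (x / W + 1) ×ˢ (univ : Finset (ZMod W)), Gf z := by
    rw [sum_product]
  rw [h3]
  apply sum_le_sum_of_subset_of_nonneg
  · intro z hz
    rw [mem_image] at hz
    obtain ⟨n, hn, rfl⟩ := hz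
    rw [mem_Ioc] at hn
    rw [mem_product, mem_Ico]
    refine ⟨⟨?_, ?_⟩, mem_univ _⟩
    · exact Nat.div_le_div_right hn.1.le
    · have := Nat.div_le_div_right (c := W) hn.2
      simp only
      omega
  · intro z _ _
    exact u_nonneg f hf0 kk W (2 * J) _

/-- the first moment of the averages over the base points -/
lemma sum_Ph_one (f : ℕ → ℝ) (hf0 : ∀ p, 0 ≤ f p) (kk W J K₁ k₀ : ℕ) [NeZero W] (hJ : 1 ≤ J) (hk₀ : 1 ≤ k₀) (hH : W * k₀ ≤ J) (b : ℤ) :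
    ((W * k₀ : ℕ) : ℝ) * ∑ k ∈ Ico k₀ K₁, ∑ σ : ZMod W, Ph f kk W J (b + bs W 1 k) σ ≤ 2 * ∑ p ∈ PP kk, f p := by
  have hW : 0 < W := Nat.pos_of_ne_zero (NeZero.ne W)
  set H := W * k₀ with hHd
  have hH0 : 1 ≤ H := Nat.mul_pos hW hk₀
  set ψ : ℕ × ZMod W × ℕ → ℤ := fun z => W * (b + bs W 1 z.1 - z.2.2) + (z.2.1.val : ℤ) with hψ
  set D := Ico k₀ K₁ ×ˢ (univ : Finset (ZMod W)) ×ˢ range H with hD
  have hpt : ∀ k : ℕ, ∀ σ : ZMod W, ∀ h ∈ range H, Ph f kk W J (b + bs W 1 k) σ ≤ 2 * u f kk W (2 * J) (ψ (k, σ, h)) := by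
    intro k σ h hh
    rw [mem_range] at hh
    unfold Ph
    have h2 : (W : ℤ) * (b + bs W 1 k) + (σ.val : ℤ) = ψ (k, σ, h) + (h * W : ℕ) := by
      simp only [hψ]
      push_cast
      ring
    rw [h2]
    exact u_shift f hf0 kk W J hJ _ h (by omega)
  have hinj : Set.InjOn ψ (D : Set (ℕ × ZMod W × ℕ)) := by
    intro z hz z' hz' hzz
    obtain ⟨k, σ, h⟩ := z
    obtain ⟨k', σ', h'⟩ := z'
    rw [mem_coe, hD, mem_product, mem_product, mem_Ico, mem_range] at hz hz'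
    simp only at hz hz'
    simp only [hψ] at hzz
    have h1 : σ = σ' := by
      have h2 := congrArg (fun t : ℤ => (t : ZMod W)) hzz
      push_cast at h2
      rw [ZMod.natCast_self, zero_mul, zero_mul, zero_add, zero_add, ZMod.natCast_zmod_val, ZMod.natCast_zmod_val] at h2
      exact h2
    subst h1
    have hWz : (0 : ℤ) < W := by exact_mod_cast hW
    have h2 : b + bs W 1 k - h = b + bs W 1 k' - h' := by
      have h3 : (W : ℤ) * (b + bs W 1 k - h) = W * (b + bs W 1 k' - h') := by linarith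
      exact mul_left_cancel₀ hWz.ne' h3
    have hkk : k = k' := by
      rcases lt_trichotomy k k' with h3 | h3 | h3
      · exfalso
        have h4 := bs_gap W hW 1 k k' k₀ hz.1.1 h3
        have h5 : bs W 1 k' - bs W 1 k = (h' : ℤ) - h := by linarith
        rw [h5] at h4
        have h6 : |(h' : ℤ) - h| < H := by rw [abs_lt]; constructor <;> omega
        have h7 : (H : ℤ) = W * k₀ := by rw [hHd]; push_cast; ring
        rw [h7] at h6
        nlinarith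
      · exact h3
      · exfalso
        have h4 := bs_gap W hW 1 k' k k₀ hz'.1.1 h3
        have h5 : bs W 1 k - bs W 1 k' = (h : ℤ) - h' := by linarith
        rw [h5] at h4
        have h6 : |(h : ℤ) - h'| < H := by rw [abs_lt]; constructor <;> omega
        have h7 : (H : ℤ) = W * k₀ := by rw [hHd]; push_cast; ring
        rw [h7] at h6
        nlinarith
    subst hkk
    have : h = h' := by omega
    rw [this]
  have hS : ∑ z ∈ D, u f kk W (2 * J) (ψ z) ≤ ∑ p ∈ PP kk, f p := by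
    have h2 : ∑ z ∈ D, u f kk W (2 * J) (ψ z) = ∑ m ∈ D.image ψ, u f kk W (2 * J) m :=
      (sum_image (f := fun m => u f kk W (2 * J) m) (fun a ha b hb h => hinj ha hb h)).symm
    rw [h2]
    exact sum_u_le f hf0 kk W (2 * J) (by omega) _
  calc ((H : ℕ) : ℝ) * ∑ k ∈ Ico k₀ K₁, ∑ σ : ZMod W, Ph f kk W J (b + bs W 1 k) σ
      = ∑ z ∈ D, Ph f kk W J (b + bs W 1 z.1) z.2.1 := by
        rw [hD, sum_product, mul_sum]
        apply sum_congr rfl
        intro k _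
        rw [sum_product, mul_sum]
        apply sum_congr rfl
        intro σ _
        dsimp only
        rw [sum_const, card_range, nsmul_eq_mul]
    _ ≤ ∑ z ∈ D, 2 * u f kk W (2 * J) (ψ z) := by
        apply sum_le_sum
        intro z hz
        rw [hD, mem_product, mem_product] at hz
        exact hpt z.1 z.2.1 z.2.2 hz.2.2
    _ = 2 * ∑ z ∈ D, u f kk W (2 * J) (ψ z) := by rw [mul_sum]
    _ ≤ _ := mul_le_mul_of_nonneg_left hS (by norm_num)

end Pool.Agent.W5h22.DS
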