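import Mathlib
import Pool.Agent.W5h22.DS.C

set_option autoImplicit false

/-! One block of shifts. -/

namespace Pool.Agent.W5h22.DS
open Finset Filter Topology
open Pool.Agent.Helper602.MK
open Pool.Agent.H373R2.NB hiding Ph
open Pool.Agent.W5h22.PV
open Pool.Agent.W5h22.RB

lemma split_lam (K : ℕ) (F lam : ℝ) (hF : 0 ≤ F) (hl : 0 < lam) : F ≤ lam + (1 / lam) ^ (2 * K + 1) * F ^ (2 * (K + 1)) := by
  rcases le_or_gt F lam with h | h
  · have : 0 ≤ (1 / lam) ^ (2 * K + 1) * F ^ (2 * (K + 1)) := by positivity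
    linarith
  · have h1 : 1 ≤ 1 / lam * F := by
      rw [one_div, inv_mul_eq_div, le_div_iff₀ hl]; linarith
    have h2 : (1 / lam) ^ (2 * K + 1) * F ^ (2 * (K + 1)) = (1 / lam * F) ^ (2 * K + 1) * F := by
      rw [mul_pow]
      have : F ^ (2 * (K + 1)) = F ^ (2 * K + 1) * F := by rw [← pow_succ]; congr 1
      rw [this]; ring
    rw [h2]
    have h3 : 1 ≤ (1 / lam * F) ^ (2 * K + 1) := one_le_pow₀ h1
    nlinarith

theorem block : ∃ C : ℝ, 1 ≤ C ∧ ∀ K : ℕ, ∃ A : ℝ, 1 ≤ A ∧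
    ∀ f : ℕ → ℝ, (∀ p, 0 ≤ f p) → (∀ p, f p ≤ 1) → ∀ kk W J y x : ℕ, ∀ _ : NeZero W, W ^ 2 ≤ kk → 2 * x + W ≤ J → 2 ≤ J →
    y ≤ x → 1 ≤ y / W → ∀ b : ℤ,
    (∑ t : ZMod W, TI f kk W J y x (W * b + (t.val : ℤ)) ≤ 4 * (∑ p ∈ PP kk, f p) / ((y / W : ℕ) : ℝ)) ∧
    ∀ lam : ℝ, 0 < lam → ∀ Sb : Finset (ZMod W), ∑ t ∈ Sb, TI f kk W J y x (W * b + (t.val : ℤ)) ≤
      4 * lam * (∑ p ∈ PP kk, f p) / ((y / W : ℕ) : ℝ) +
        2 * W * ((x / W + 1 : ℕ) : ℝ) * (C * W / Real.log J) * (1 / lam) ^ (2 * K + 1) * A * ((#Sb : ℝ) / W) ^ (K + 1) := by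
  classical
  obtain ⟨C, hC, hsup⟩ := u_sup
  refine ⟨C, hC, ?_⟩
  intro K
  obtain ⟨A, hA, hLD⟩ := dual_local K
  refine ⟨A, hA, ?_⟩
  intro f hf0 hf kk W J y x hW hWk hJx hJ2 hyx hk₀ b
  have hWp : 0 < W := Nat.pos_of_ne_zero (NeZero.ne W)
  have hW0 : (0 : ℝ) < W := by exact_mod_cast hWp
  have hφ : (0 : ℝ) < W.totient := tot_pos W
  have hlJ : 0 < Real.log J := Real.log_pos (by exact_mod_cast (by omega : 1 < J))
  set k₀ := y / W with hk₀d
  have hk0 : (0 : ℝ) < k₀ := by exact_mod_cast hk₀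
  have hHJ : W * k₀ ≤ J := by
    have h : W * k₀ ≤ y := Nat.mul_div_le y W
    omega
  set m := K + 1 with hm
  set K₁ := x / W + 1 with hK₁
  set S := ∑ p ∈ PP kk, f p with hS
  have hS0 : 0 ≤ S := sum_nonneg fun p _ => hf0 p
  set g : ℝ := C * ((W : ℝ) / W.totient) / Real.log J with hg
  have hg0 : 0 ≤ g := by positivity
  have hgu : ∀ v : ℤ, u f kk W (2 * J) v ≤ g := by
    intro v
    refine (hsup f hf0 hf kk W (2 * J) hWp (by omega) v).trans ?_
    rw [hg]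
    apply div_le_div_of_nonneg_left (by positivity) hlJ
    apply Real.log_le_log (by exact_mod_cast (by omega : 0 < J))
    exact_mod_cast (by omega : J ≤ 2 * J)
  have hP0 : ∀ y : ℤ, ∀ σ : ZMod W, 0 ≤ Ph f kk W (2 * J) y σ := fun y σ => u_nonneg f hf0 kk W (2 * J) _
  set G : ZMod W → ℝ := fun σ => ∑ k ∈ Ico k₀ K₁, Ph f kk W (2 * J) (b + bs W 1 k) σ with hG
  have hG0 : ∀ σ, 0 ≤ G σ := fun σ => sum_nonneg fun k _ => hP0 _ _
  have hGle : ∀ σ, G σ ≤ K₁ * g := by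
    intro σ
    calc G σ ≤ ∑ _k ∈ Ico k₀ K₁, g := sum_le_sum fun k _ => hgu _
      _ = ((K₁ - k₀ : ℕ) : ℝ) * g := by rw [sum_const, Nat.card_Ico, nsmul_eq_mul]
      _ ≤ K₁ * g := by
          apply mul_le_mul_of_nonneg_right _ hg0
          exact_mod_cast Nat.sub_le _ _
  have hGu : ∀ σ, ¬ IsUnit σ → G σ = 0 := by
    intro σ hσ
    simp only [hG]
    apply sum_eq_zero
    intro k _
    exact u_nonunit f kk W (2 * J) hWk _ σ hσ
  have hGs : ∑ σ, G σ ≤ 2 * S / (W * k₀) := by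
    rw [le_div_iff₀ (by positivity)]
    have h1 := sum_Ph_one f hf0 kk W (2 * J) K₁ k₀ (by omega) hk₀ (by omega) b
    have h2 : ∑ σ, G σ = ∑ k ∈ Ico k₀ K₁, ∑ σ : ZMod W, Ph f kk W (2 * J) (b + bs W 1 k) σ := by
      simp only [hG]; rw [sum_comm]
    rw [h2]
    push_cast at h1
    linarith
  have hTI : ∀ t : ZMod W, TI f kk W J y x (W * b + (t.val : ℤ)) ≤ 2 * ∑ c, G (t + c ^ 2) := by
    intro t
    refine (TI_le f hf0 kk W J y x hJx b t).trans (le_of_eq ?_)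
    simp only [hG]
    rw [sum_comm]
  constructor
  · calc ∑ t : ZMod W, TI f kk W J y x (W * b + (t.val : ℤ)) ≤ ∑ t : ZMod W, 2 * ∑ c, G (t + c ^ 2) := sum_le_sum fun t _ => hTI t
      _ = 2 * ∑ c : ZMod W, ∑ t, G (t + c ^ 2) := by rw [← mul_sum, sum_comm]
      _ = 2 * ∑ _c : ZMod W, ∑ σ, G σ := by
          congr 1
          apply sum_congr rfl
          intro c _
          exact Equiv.sum_comp (Equiv.addRight (c ^ 2)) G
      _ = 2 * W * ∑ σ, G σ := by rw [sum_const, card_univ, ZMod.card, nsmul_eq_mul]; ring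
      _ ≤ 2 * W * (2 * S / (W * k₀)) := mul_le_mul_of_nonneg_left hGs (by positivity)
      _ = _ := by field_simp; ring
  · intro lam hlam Sb
    set ind : ZMod W → ℝ := fun t => if t ∈ Sb then 1 else 0 with hind
    have hind0 : ∀ t, 0 ≤ ind t := by intro t; simp only [hind]; split_ifs <;> norm_num
    set F : ZMod W → ℝ := fun σ => (∑ c, ind (σ - c ^ 2)) / W with hF
    have hF0 : ∀ σ, 0 ≤ F σ := fun σ => div_nonneg (sum_nonneg fun _ _ => hind0 _) hW0.le
    have hdual := LD_neg (hLD W hW) ind hind0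
    have hEi : E (fun t => ind t ^ 2) = (#Sb : ℝ) / W := by
      unfold E
      congr 1
      have h1 : ∀ t, ind t ^ 2 = if t ∈ Sb then 1 else 0 := by intro t; simp only [hind]; split_ifs <;> norm_num
      simp_rw [h1]
      rw [sum_ite_mem, univ_inter, sum_const, nsmul_eq_mul, mul_one]
    rw [hEi] at hdual
    have h1 : ∑ t ∈ Sb, TI f kk W J y x (W * b + (t.val : ℤ)) ≤ 2 * W * ∑ σ, G σ * F σ := by
      calc ∑ t ∈ Sb, TI f kk W J y x (W * b + (t.val : ℤ)) ≤ ∑ t ∈ Sb, 2 * ∑ c, G (t + c ^ 2) := sum_le_sum fun t _ => hTI t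
        _ = ∑ t, ind t * (2 * ∑ c, G (t + c ^ 2)) := by
            simp only [hind, ite_mul, one_mul, zero_mul]
            rw [sum_ite_mem, univ_inter]
        _ = 2 * ∑ c : ZMod W, ∑ t, ind t * G (t + c ^ 2) := by
            rw [sum_comm, mul_sum]
            apply sum_congr rfl
            intro t _
            rw [← mul_sum]; ring
        _ = 2 * ∑ c : ZMod W, ∑ σ, ind (σ - c ^ 2) * G σ := by
            congr 1
            apply sum_congr rfl
            intro c _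
            rw [← Equiv.sum_comp (Equiv.addRight (c ^ 2)) (fun σ => ind (σ - c ^ 2) * G σ)]
            apply sum_congr rfl
            intro t _
            simp only [Equiv.coe_addRight, add_sub_cancel_right]
        _ = 2 * W * ∑ σ, G σ * F σ := by
            rw [sum_comm, mul_sum, mul_sum]
            apply sum_congr rfl
            intro σ _
            simp only [hF]
            rw [← sum_mul]
            field_simp
    refine h1.trans ?_
    have h2 : ∀ σ, G σ * F σ ≤ lam * G σ + (K₁ * g * (1 / lam) ^ (2 * K + 1)) * (if IsUnit σ then F σ ^ (2 * m) else 0) := by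
      intro σ
      by_cases hσ : IsUnit σ
      · rw [if_pos hσ]
        have h3 := split_lam K (F σ) lam (hF0 σ) hlam
        have h4 := mul_le_mul_of_nonneg_left h3 (hG0 σ)
        have h5 : G σ * ((1 / lam) ^ (2 * K + 1) * F σ ^ (2 * (K + 1))) ≤ (K₁ * g) * ((1 / lam) ^ (2 * K + 1) * F σ ^ (2 * (K + 1))) :=
          mul_le_mul_of_nonneg_right (hGle σ) (mul_nonneg (by positivity) ((even_two_mul (K + 1)).pow_nonneg _))
        have h6 : G σ * (lam + (1 / lam) ^ (2 * K + 1) * F σ ^ (2 * (K + 1))) = lam * G σ + G σ * ((1 / lam) ^ (2 * K + 1) * F σ ^ (2 * (K + 1))) := by ring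
        rw [h6] at h4
        have h7 : (K₁ * g) * ((1 / lam) ^ (2 * K + 1) * F σ ^ (2 * (K + 1))) = (K₁ * g * (1 / lam) ^ (2 * K + 1)) * F σ ^ (2 * m) := by rw [hm]; ring
        linarith
      · rw [if_neg hσ, hGu σ hσ]; simp
    have h3 := sum_le_sum (fun σ (_ : σ ∈ (univ : Finset (ZMod W))) => h2 σ)
    rw [sum_add_distrib, ← mul_sum, ← mul_sum] at h3
    have h4 : (K₁ * g * (1 / lam) ^ (2 * K + 1)) * ∑ σ : ZMod W, (if IsUnit σ then F σ ^ (2 * m) else 0) ≤
        (K₁ * g * (1 / lam) ^ (2 * K + 1)) * ((W.totient : ℝ) * A * ((#Sb : ℝ) / W) ^ m) :=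
      mul_le_mul_of_nonneg_left hdual (by positivity)
    have h5 : lam * ∑ σ, G σ ≤ lam * (2 * S / (W * k₀)) := mul_le_mul_of_nonneg_left hGs hlam.le
    calc 2 * (W : ℝ) * ∑ σ, G σ * F σ ≤ 2 * W * (lam * (2 * S / (W * k₀)) +
          (K₁ * g * (1 / lam) ^ (2 * K + 1)) * ((W.totient : ℝ) * A * ((#Sb : ℝ) / W) ^ m)) :=
          mul_le_mul_of_nonneg_left (by linarith) (by positivity)
      _ = _ := by
          rw [hg]
          field_simp
          ring

end Pool.Agent.W5h22.DS
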