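import Mathlib
import Pool.Agent.W5h22.DS.D

set_option autoImplicit false

/-! Dense sets of primes. -/

namespace Pool.Agent.W5h22.DS
open Finset Filter Topology
open Pool.Agent.Helper602.MK
open Pool.Agent.H373R2.NB hiding Ph
open Pool.Agent.W5h22.PV
open Pool.Agent.W5h22.RB

open Classical in
/-- the indicator of the primes `≤ N` in `P` -/
noncomputable def ind (P : Set ℕ) (N : ℕ) (p : ℕ) : ℝ := if p.Prime ∧ p ≤ N ∧ p ∈ P then 1 else 0

open Classical in
/-- the primes `≤ N` in `P` -/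
noncomputable def PN (P : Set ℕ) (N : ℕ) : Finset ℕ := (Icc 1 N).filter (fun p => p.Prime ∧ p ∈ P)

lemma ind_nonneg (P : Set ℕ) (N p : ℕ) : 0 ≤ ind P N p := by unfold ind; split_ifs <;> norm_num
lemma ind_le (P : Set ℕ) (N p : ℕ) : ind P N p ≤ 1 := by unfold ind; split_ifs <;> norm_num

lemma sum_ind_le (P : Set ℕ) (N : ℕ) : ∑ p ∈ PP (3 * N), ind P N p ≤ #(PN P N) := by
  classical
  unfold ind
  rw [← sum_filter, sum_const, nsmul_eq_mul, mul_one]
  have h : (PP (3 * N)).filter (fun p => p.Prime ∧ p ≤ N ∧ p ∈ P) ⊆ PN P N := by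
    intro p hp
    rw [mem_filter] at hp
    unfold PN
    rw [mem_filter, mem_Icc]
    exact ⟨⟨hp.2.1.one_lt.le, hp.2.2.1⟩, hp.2.1, hp.2.2.2⟩
  exact_mod_cast card_le_card h

/-- the first moment -/
lemma first_moment (P : Set ℕ) (N y x : ℕ) (hx : x ^ 2 ≤ N) :
    ((x - y : ℕ) : ℝ) * #(PN P N) ≤ ∑ a ∈ Icc (-(N : ℤ)) N, ∑ n ∈ Ioc y x, pw (ind P N) (a + (n : ℤ) ^ 2) := by
  classical
  rw [sum_comm]
  have h1 : ∀ n ∈ Ioc y x, (#(PN P N) : ℝ) ≤ ∑ a ∈ Icc (-(N : ℤ)) N, pw (ind P N) (a + (n : ℤ) ^ 2) := by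
    intro n hn
    rw [mem_Ioc] at hn
    have hn2 : (n : ℤ) ^ 2 ≤ N := by
      have : n ^ 2 ≤ N := (Nat.pow_le_pow_left hn.2 2).trans hx
      exact_mod_cast this
    have hn0 : (0 : ℤ) ≤ (n : ℤ) ^ 2 := sq_nonneg _
    have h2 : ∑ a ∈ (PN P N).image (fun p : ℕ => (p : ℤ) - (n : ℤ) ^ 2), pw (ind P N) (a + (n : ℤ) ^ 2) = #(PN P N) := by
      rw [sum_image (by intro a _ b _ hab; simp only at hab; omega)]
      have h3 : ∀ p ∈ PN P N, pw (ind P N) ((p : ℤ) - (n : ℤ) ^ 2 + (n : ℤ) ^ 2) = 1 := by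
        intro p hp
        unfold PN at hp
        rw [mem_filter, mem_Icc] at hp
        unfold pw ind
        have e1 : ((p : ℤ) - (n : ℤ) ^ 2 + (n : ℤ) ^ 2).toNat = p := by simp
        rw [e1, if_pos hp.2.1, if_pos ⟨hp.2.1, hp.1.2, hp.2.2⟩]
      rw [sum_congr rfl h3, sum_const, nsmul_eq_mul, mul_one]
    rw [← h2]
    apply sum_le_sum_of_subset_of_nonneg
    · intro a ha
      rw [mem_image] at ha
      obtain ⟨p, hp, rfl⟩ := ha
      unfold PN at hp
      rw [mem_filter, mem_Icc] at hp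
      rw [mem_Icc]
      omega
    · intro a _ _
      unfold pw
      split_ifs
      · exact ind_nonneg _ _ _
      · exact le_rfl
  calc ((x - y : ℕ) : ℝ) * #(PN P N) = ∑ _n ∈ Ioc y x, (#(PN P N) : ℝ) := by rw [sum_const, Nat.card_Ioc, nsmul_eq_mul]
    _ ≤ _ := sum_le_sum h1

lemma Ioc_sub (f : ℕ → ℝ) (y x : ℕ) (h : y ≤ x) : ∑ n ∈ Ioc y x, f n = ∑ n ∈ Icc 1 x, f n - ∑ n ∈ Icc 1 y, f n := by
  have h1 : Icc 1 x = Icc 1 y ∪ Ioc y x := by
    ext n; simp only [mem_union, mem_Icc, mem_Ioc]; omega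
  have h2 : Disjoint (Icc 1 y) (Ioc y x) := by
    rw [disjoint_left]
    intro n hn hn2
    rw [mem_Icc] at hn
    rw [mem_Ioc] at hn2
    omega
  rw [h1, sum_union h2]
  ring

/-- many shifts whose average is large -/
theorem many : ∃ C : ℝ, 1 ≤ C ∧ ∀ K : ℕ, ∃ c₁ : ℝ, 0 < c₁ ∧ ∀ β : ℝ, 0 < β → ∀ τ : ℝ, 0 < τ → ∀ W : ℕ, 1 ≤ W → ∀ t : ℝ, 0 < t →
    t ^ (K + 1) ≤ c₁ * β → ∀ᶠ N : ℕ in atTop, ∀ P : Set ℕ, β * (N / Real.log N) ≤ #(PN P N) →
      ((Nat.sqrt N : ℝ) / 4) * #(PN P N) ≤ ∑ a ∈ Icc (-(N : ℤ)) N, TI (ind P N) (3 * N) W ⌊τ * N / W⌋₊ (Nat.sqrt N / 2) (Nat.sqrt N) a →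
      t / 1024 * N ≤ #((Icc (-(N : ℤ)) N).filter (fun a =>
        (Nat.sqrt N : ℝ) * #(PN P N) / (48 * N) ≤ TI (ind P N) (3 * N) W ⌊τ * N / W⌋₊ (Nat.sqrt N / 2) (Nat.sqrt N) a)) := by
  obtain ⟨C, hC, hblock⟩ := block
  refine ⟨C, hC, ?_⟩
  intro K
  obtain ⟨A, hA, hb⟩ := hblock K
  refine ⟨1 / (768 * C * 6144 ^ (2 * K + 1) * A), by positivity, ?_⟩
  intro β hβ τ hτ W hW t ht htβ
  have hNW : NeZero W := ⟨by omega⟩
  have hW0 : (0 : ℝ) < W := by exact_mod_cast hW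
  have hW1 : (1 : ℝ) ≤ W := by exact_mod_cast hW
  have hev1 : ∀ᶠ N : ℕ in atTop, (4 * W / τ + 4 * W + 8) ^ 2 ≤ (N : ℝ) := tendsto_natCast_atTop_atTop.eventually_ge_atTop _
  have hev2 : ∀ᶠ N : ℕ in atTop, 4096 * W / t ≤ (N : ℝ) := tendsto_natCast_atTop_atTop.eventually_ge_atTop _
  filter_upwards [hev1, hev2, eventually_ge_atTop (W ^ 2 + 2 * W + 4)] with N hN1 hN3 hN2
  intro P hP hfirst
  classical
  set x := Nat.sqrt N with hx
  set y := x / 2 with hy
  set J := ⌊τ * N / W⌋₊ with hJ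
  set S' : ℝ := (#(PN P N) : ℝ) with hS'
  set m := K + 1 with hmd
  have hNr : (4 : ℝ) ≤ N := by exact_mod_cast (by omega : 4 ≤ N)
  have hN0 : (0 : ℝ) < N := by linarith
  have hlN : 0 < Real.log N := Real.log_pos (by linarith)
  have hS'0 : 0 < S' := lt_of_lt_of_le (by positivity) hP
  -- x
  have hx1 : x ^ 2 ≤ N := Nat.sqrt_le' N
  have hx2 : N < (x + 1) ^ 2 := Nat.lt_succ_sqrt' N
  have hx1r : (x : ℝ) ^ 2 ≤ N := by exact_mod_cast hx1
  have hx2r : (N : ℝ) < ((x : ℝ) + 1) ^ 2 := by exact_mod_cast hx2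
  have hbig : 4 * W / τ + 4 * W + 8 < (x : ℝ) + 1 := by
    have h1 : (4 * W / τ + 4 * W + 8) ^ 2 < ((x : ℝ) + 1) ^ 2 := lt_of_le_of_lt hN1 hx2r
    exact lt_of_pow_lt_pow_left₀ 2 (by positivity) h1
  have p1 : 0 < 4 * (W : ℝ) / τ := by positivity
  have hxW : 4 * (W : ℝ) + 7 ≤ x := by linarith
  have hxτ : 4 * (W : ℝ) / τ ≤ x := by linarith
  have hx3 : (11 : ℝ) ≤ x := by linarith
  have hx0 : (0 : ℝ) < x := by linarith
  have hN4x : (N : ℝ) ≤ 4 * x ^ 2 := by nlinarith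
  have hxWn : 4 * W + 7 ≤ x := by exact_mod_cast hxW
  -- J
  have hJr : 2 * (x : ℝ) + W + 1 ≤ J + 1 := by
    have h1 : τ * N / W < J + 1 := Nat.lt_floor_add_one _
    have h2 : 3 * (x : ℝ) + W + 1 ≤ τ * N / W := by
      rw [le_div_iff₀ hW0]
      have h3 : 4 * (W : ℝ) ≤ τ * x := by
        have := mul_le_mul_of_nonneg_left hxτ hτ.le
        rw [mul_div_cancel₀ _ hτ.ne'] at this
        exact this
      have h4 : 4 * (W : ℝ) * x ≤ τ * N := by
        calc 4 * (W : ℝ) * x ≤ τ * x * x := mul_le_mul_of_nonneg_right h3 (by linarith)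
          _ = τ * x ^ 2 := by ring
          _ ≤ τ * N := mul_le_mul_of_nonneg_left hx1r hτ.le
      nlinarith
    linarith
  have hJ1 : 2 * x + W ≤ J := by
    have : (2 * x + W : ℝ) ≤ J := by linarith
    exact_mod_cast this
  have hJ2 : 2 ≤ J := by omega
  have hlJ : Real.log N / 2 ≤ Real.log J := by
    have h1 : (N : ℝ) ≤ (J : ℝ) ^ 2 := by
      have h2 : (2 * x + W : ℝ) ≤ J := by exact_mod_cast hJ1
      nlinarith
    have h2 := Real.log_le_log hN0 h1
    rw [Real.log_pow] at h2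
    push_cast at h2
    linarith
  have hlJ0 : 0 < Real.log J := by linarith
  -- k₀
  have hyx : y ≤ x := Nat.div_le_self _ _
  have hk₀1 : 1 ≤ y / W := by
    rw [Nat.one_le_div_iff hW]
    omega
  have hk₀ : (x : ℝ) / (4 * W) ≤ ((y / W : ℕ) : ℝ) := by
    have h1 : x ≤ 4 * (W * (y / W)) := by
      have h2 := Nat.div_add_mod y W
      have h3 := Nat.mod_lt y hW
      have h4 : x ≤ 2 * y + 1 := by omega
      omega
    rw [div_le_iff₀ (by positivity)]
    have h2 : (x : ℝ) ≤ 4 * (W * ((y / W : ℕ) : ℝ)) := by exact_mod_cast h1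
    linarith
  have hk₀0 : (0 : ℝ) < ((y / W : ℕ) : ℝ) := by exact_mod_cast hk₀1
  set f := ind P N with hf
  have hf0 : ∀ p, 0 ≤ f p := ind_nonneg P N
  have hf1 : ∀ p, f p ≤ 1 := ind_le P N
  have hSS : ∑ p ∈ PP (3 * N), f p ≤ S' := sum_ind_le P N
  have hS0 : 0 ≤ ∑ p ∈ PP (3 * N), f p := sum_nonneg fun p _ => hf0 p
  set Tf : ℤ → ℝ := fun a => TI f (3 * N) W J y x a with hTf
  have hTf0 : ∀ a, 0 ≤ Tf a := fun a => sum_nonneg fun n _ => u_nonneg f hf0 _ _ _ _
  have hbl : ∀ b : ℤ, (∑ t : ZMod W, Tf (W * b + (t.val : ℤ)) ≤ 4 * (∑ p ∈ PP (3 * N), f p) / ((y / W : ℕ) : ℝ)) ∧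
      ∀ lam : ℝ, 0 < lam → ∀ Sb : Finset (ZMod W), ∑ t ∈ Sb, Tf (W * b + (t.val : ℤ)) ≤
      4 * lam * (∑ p ∈ PP (3 * N), f p) / ((y / W : ℕ) : ℝ) +
        2 * W * ((x / W + 1 : ℕ) : ℝ) * (C * W / Real.log J) * (1 / lam) ^ (2 * K + 1) * A * ((#Sb : ℝ) / W) ^ (K + 1) :=
    fun b => hb f hf0 hf1 (3 * N) W J y x hNW (by nlinarith) hJ1 hJ2 hyx hk₀1 b
  have hSk : 4 * (∑ p ∈ PP (3 * N), f p) / ((y / W : ℕ) : ℝ) ≤ 16 * W * S' / x := by
    rw [div_le_div_iff₀ hk₀0 hx0]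
    rw [div_le_iff₀ (by positivity)] at hk₀
    calc 4 * (∑ p ∈ PP (3 * N), f p) * x ≤ 4 * S' * x := by
          apply mul_le_mul_of_nonneg_right _ hx0.le
          linarith
      _ ≤ 4 * S' * (((y / W : ℕ) : ℝ) * (4 * W)) := mul_le_mul_of_nonneg_left hk₀ (by positivity)
      _ = _ := by ring
  set μ : ℝ := x * S' * W / (24 * N) with hμ
  have hμ0 : 0 < μ := by positivity
  set M : ℤ → ℝ := fun b => ∑ t : ZMod W, Tf (W * b + (t.val : ℤ)) with hM
  have hM0 : ∀ b, 0 ≤ M b := fun b => sum_nonneg fun t _ => hTf0 _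
  have hMle : ∀ b, M b ≤ 16 * W * S' / x := fun b => (hbl b).1.trans hSk
  set Bs := Icc (-((N / W : ℕ) + 1 : ℤ)) ((N / W : ℕ) : ℤ) with hBs
  have hcardB : (#Bs : ℝ) * W ≤ 3 * N := by
    rw [hBs, Int.card_Icc]
    have h1 : (((N / W : ℕ) : ℤ) + 1 - -((N / W : ℕ) + 1 : ℤ)).toNat = 2 * (N / W) + 2 := by omega
    rw [h1]
    have h2 : (2 * (N / W) + 2) * W ≤ 3 * N := by
      have h3 := Nat.div_mul_le_self N W
      nlinarith
    exact_mod_cast h2
  have hsumM : (x : ℝ) / 4 * S' ≤ ∑ b ∈ Bs, M b := by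
    refine hfirst.trans ?_
    have h1 := blocks W N 1 (Or.inl rfl) Tf hTf0
    simp only [one_mul] at h1
    exact h1
  set Gd := Bs.filter (fun b => μ ≤ M b) with hGd
  have hGsum : (x : ℝ) * S' / 8 ≤ ∑ b ∈ Gd, M b := by
    have h1 := sum_filter_add_sum_filter_not Bs (fun b => μ ≤ M b) M
    have h2 : ∑ b ∈ Bs.filter (fun b => ¬ μ ≤ M b), M b ≤ x * S' / 8 := by
      calc ∑ b ∈ Bs.filter (fun b => ¬ μ ≤ M b), M b ≤ ∑ _b ∈ Bs.filter (fun b => ¬ μ ≤ M b), μ := by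
            apply sum_le_sum
            intro b hb
            rw [mem_filter, not_le] at hb
            exact hb.2.le
        _ = #(Bs.filter (fun b => ¬ μ ≤ M b)) * μ := by rw [sum_const, nsmul_eq_mul]
        _ ≤ #Bs * μ := mul_le_mul_of_nonneg_right (by exact_mod_cast card_filter_le _ _) hμ0.le
        _ = (#Bs * W) * (x * S' / (24 * N)) := by rw [hμ]; ring
        _ ≤ (3 * N) * (x * S' / (24 * N)) := mul_le_mul_of_nonneg_right hcardB (by positivity)
        _ = x * S' / 8 := by field_simp; norm_num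
    rw [← hGd] at h1
    linarith
  have hGcard : (N : ℝ) / (512 * W) ≤ #Gd := by
    have h1 : ∑ b ∈ Gd, M b ≤ #Gd * (16 * W * S' / x) := by
      calc ∑ b ∈ Gd, M b ≤ ∑ _b ∈ Gd, 16 * W * S' / x := sum_le_sum fun b _ => hMle b
        _ = _ := by rw [sum_const, nsmul_eq_mul]
    have h2 : (N : ℝ) / (512 * W) * (16 * W * S' / x) ≤ x * S' / 8 := by
      have h3 : (N : ℝ) / (512 * W) * (16 * W * S' / x) = N * S' / (32 * x) := by field_simp; norm_num
      rw [h3, div_le_div_iff₀ (by positivity) (by norm_num)]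
      nlinarith [mul_le_mul_of_nonneg_right hN4x hS'0.le]
    exact le_of_mul_le_mul_right (h2.trans (hGsum.trans h1)) (by positivity)
  -- a good block
  set thr : ℝ := x * S' / (48 * N) with hthr
  have hthrμ : W * thr = μ / 2 := by rw [hthr, hμ]; ring
  set Sb : ℤ → Finset (ZMod W) := fun b => univ.filter (fun t : ZMod W => thr ≤ Tf (W * b + (t.val : ℤ))) with hSb
  have hgood : ∀ b ∈ Gd, t * W ≤ #(Sb b) := by
    intro b hbG
    rw [hGd, mem_filter] at hbG
    have h1 : μ / 2 ≤ ∑ t ∈ Sb b, Tf (W * b + (t.val : ℤ)) := by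
      have h2 := sum_filter_add_sum_filter_not univ (fun t : ZMod W => thr ≤ Tf (W * b + (t.val : ℤ))) (fun t => Tf (W * b + (t.val : ℤ)))
      have h3 : ∑ t ∈ univ.filter (fun t : ZMod W => ¬ thr ≤ Tf (W * b + (t.val : ℤ))), Tf (W * b + (t.val : ℤ)) ≤ μ / 2 := by
        calc _ ≤ ∑ _t ∈ univ.filter (fun t : ZMod W => ¬ thr ≤ Tf (W * b + (t.val : ℤ))), thr := by
              apply sum_le_sum
              intro t ht
              rw [mem_filter, not_le] at ht
              exact ht.2.le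
          _ = #(univ.filter (fun t : ZMod W => ¬ thr ≤ Tf (W * b + (t.val : ℤ)))) * thr := by rw [sum_const, nsmul_eq_mul]
          _ ≤ W * thr := by
              apply mul_le_mul_of_nonneg_right _ (by positivity)
              have := card_filter_le (univ : Finset (ZMod W)) (fun t : ZMod W => ¬ thr ≤ Tf (W * b + (t.val : ℤ)))
              rw [card_univ, ZMod.card] at this
              exact_mod_cast this
          _ = μ / 2 := hthrμ
      have h4 : μ ≤ ∑ t : ZMod W, Tf (W * b + (t.val : ℤ)) := hbG.2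
      linarith
    have h2 := (hbl b).2 (1 / 6144) (by norm_num) (Sb b)
    have h3 : 4 * (1 / 6144) * (∑ p ∈ PP (3 * N), f p) / ((y / W : ℕ) : ℝ) ≤ μ / 4 := by
      have h4 : 4 * (1 / 6144) * (∑ p ∈ PP (3 * N), f p) / ((y / W : ℕ) : ℝ) = (1 / 6144) * (4 * (∑ p ∈ PP (3 * N), f p) / ((y / W : ℕ) : ℝ)) := by ring
      rw [h4]
      have h5 : (1 / 6144) * (16 * W * S' / x) ≤ μ / 4 := by
        rw [hμ]
        have h6 : (1 / 6144) * (16 * W * S' / x) = W * S' / (384 * x) := by ring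
        have h7 : x * S' * W / (24 * N) / 4 = W * S' * x / (96 * N) := by ring
        rw [h6, h7, div_le_div_iff₀ (by positivity) (by positivity)]
        have h8 : (96 * (N : ℝ)) ≤ x * (384 * x) := by nlinarith
        have h9 : 0 ≤ W * S' := by positivity
        calc W * S' * (96 * N) ≤ W * S' * (x * (384 * x)) := mul_le_mul_of_nonneg_left h8 h9
          _ = _ := by ring
      exact (mul_le_mul_of_nonneg_left hSk (by norm_num)).trans h5
    set s : ℝ := (#(Sb b) : ℝ) / W with hs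
    have hs0 : 0 ≤ s := by positivity
    have h4 : 2 * W * ((x / W + 1 : ℕ) : ℝ) * (C * W / Real.log J) ≤ 8 * C * W * x / Real.log N := by
      have h5 : ((x / W + 1 : ℕ) : ℝ) * W ≤ 2 * x := by
        have h6 : (x / W + 1) * W ≤ 2 * x := by
          have := Nat.div_mul_le_self x W
          nlinarith
        exact_mod_cast h6
      calc 2 * W * ((x / W + 1 : ℕ) : ℝ) * (C * W / Real.log J) = 2 * C * W * (((x / W + 1 : ℕ) : ℝ) * W) / Real.log J := by ring
        _ ≤ 2 * C * W * (2 * x) / (Real.log N / 2) := by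
            apply div_le_div₀ (by positivity) _ (by positivity) hlJ
            exact mul_le_mul_of_nonneg_left h5 (by positivity)
        _ = _ := by field_simp; norm_num
    have h5 : μ / 4 ≤ (8 * C * W * x / Real.log N) * 6144 ^ (2 * K + 1) * A * s ^ m := by
      have h6 : (1 / (1 / 6144 : ℝ)) = 6144 := by norm_num
      rw [h6] at h2
      have h7 : 2 * W * ((x / W + 1 : ℕ) : ℝ) * (C * W / Real.log J) * 6144 ^ (2 * K + 1) * A * s ^ m ≤
          (8 * C * W * x / Real.log N) * 6144 ^ (2 * K + 1) * A * s ^ m := by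
        apply mul_le_mul_of_nonneg_right _ (by positivity)
        apply mul_le_mul_of_nonneg_right _ (by positivity)
        exact mul_le_mul_of_nonneg_right h4 (by positivity)
      linarith
    have h6 : t ^ m ≤ s ^ m := by
      refine htβ.trans ?_
      have h7 : β ≤ S' * Real.log N / N := by
        rw [le_div_iff₀ hN0]
        have := mul_le_mul_of_nonneg_right hP hlN.le
        have h8 : β * (N / Real.log N) * Real.log N = β * N := by field_simp
        rw [h8] at this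
        exact this
      have hden : 0 < 768 * C * 6144 ^ (2 * K + 1) * A := by positivity
      rw [one_div, inv_mul_le_iff₀ hden]
      refine h7.trans ?_
      rw [div_le_iff₀ hN0]
      have h8 : μ / 4 * (96 * N * Real.log N / (x * W)) = S' * Real.log N := by
        rw [hμ]; field_simp; norm_num
      have h9 : (8 * C * W * x / Real.log N) * 6144 ^ (2 * K + 1) * A * s ^ m * (96 * N * Real.log N / (x * W)) =
          768 * C * 6144 ^ (2 * K + 1) * A * s ^ m * N := by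
        field_simp
        ring
      rw [← h8, ← h9]
      exact mul_le_mul_of_nonneg_right h5 (by positivity)
    have h7 : t ≤ s := le_of_pow_le_pow_left₀ (by omega) hs0 h6
    rw [hs, le_div_iff₀ hW0] at h7
    exact h7
  -- the shifts
  set Pr : Finset (ℤ × ZMod W) := Gd.sigma (fun b => Sb b) |>.image (fun z => (z.1, z.2)) with hPr
  have hPrc : t / 512 * N ≤ #Pr := by
    have h1 : #Pr = ∑ b ∈ Gd, #(Sb b) := by
      rw [hPr, card_image_of_injective, card_sigma]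
      intro z z' h
      obtain ⟨b, t⟩ := z
      obtain ⟨b', t'⟩ := z'
      simp only [Prod.mk.injEq] at h
      obtain ⟨rfl, rfl⟩ := h
      rfl
    rw [h1]
    push_cast
    calc t / 512 * N = (N / (512 * W)) * (t * W) := by field_simp
      _ ≤ #Gd * (t * W) := mul_le_mul_of_nonneg_right hGcard (by positivity)
      _ = ∑ _b ∈ Gd, t * W := by rw [sum_const, nsmul_eq_mul]
      _ ≤ _ := sum_le_sum hgood
  set ψ : ℤ × ZMod W → ℤ := fun z => W * z.1 + (z.2.val : ℤ) with hψ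
  have hinj : Function.Injective ψ := by
    intro z z' h
    obtain ⟨b, t⟩ := z
    obtain ⟨b', t'⟩ := z'
    simp only [hψ] at h
    have h1 : t = t' := by
      have h2 := congrArg (fun t : ℤ => (t : ZMod W)) h
      push_cast at h2
      rw [ZMod.natCast_self, zero_mul, zero_mul, zero_add, zero_add, ZMod.natCast_zmod_val, ZMod.natCast_zmod_val] at h2
      exact h2
    subst h1
    have hWz : (W : ℤ) ≠ 0 := by exact_mod_cast (by omega : W ≠ 0)
    have h2 : (W : ℤ) * b = W * b' := by linarith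
    rw [mul_left_cancel₀ hWz h2]
  set Af := (Icc (-(N : ℤ)) N).filter (fun a => thr ≤ Tf a) with hAf
  have hsub : Pr.image ψ ⊆ Af ∪ (Icc (-(N : ℤ) - 2 * W) (-(N : ℤ) - 1) ∪ Icc ((N : ℤ) + 1) (N + 2 * W)) := by
    intro a ha
    rw [mem_image] at ha
    obtain ⟨⟨b, t⟩, hbt, rfl⟩ := ha
    rw [hPr, mem_image] at hbt
    obtain ⟨⟨b', t'⟩, hz, heq⟩ := hbt
    simp only [Prod.mk.injEq] at heq
    obtain ⟨rfl, rfl⟩ := heq
    rw [mem_sigma] at hz
    obtain ⟨hzb, hzt⟩ := hz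
    simp only at hzb hzt
    rw [hGd, mem_filter, hBs, mem_Icc] at hzb
    simp only [hSb] at hzt
    rw [mem_filter] at hzt
    have hv : ((t'.val : ℕ) : ℤ) < W := by exact_mod_cast ZMod.val_lt t'
    have hv0 : (0 : ℤ) ≤ (t'.val : ℕ) := Int.natCast_nonneg _
    have hdm : (W : ℤ) * (N / W : ℕ) ≤ N := by exact_mod_cast Nat.mul_div_le N W
    have hWz : (0 : ℤ) ≤ W := Int.natCast_nonneg _
    have q1 : (W : ℤ) * b' ≤ W * (N / W : ℕ) := mul_le_mul_of_nonneg_left hzb.1.2 hWz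
    have q2 : (W : ℤ) * (-((N / W : ℕ) + 1 : ℤ)) ≤ W * b' := mul_le_mul_of_nonneg_left hzb.1.1 hWz
    have q3 : (W : ℤ) * (-((N / W : ℕ) + 1 : ℤ)) = -(W * (N / W : ℕ)) - W := by ring
    rw [mem_union, mem_union, hAf, mem_filter, mem_Icc, mem_Icc, mem_Icc]
    simp only [hψ]
    by_cases hin : -(N : ℤ) ≤ W * b' + (t'.val : ℤ) ∧ (W : ℤ) * b' + (t'.val : ℤ) ≤ N
    · left
      exact ⟨hin, hzt.2⟩
    · right
      by_cases hlow : -(N : ℤ) ≤ W * b' + (t'.val : ℤ)
      · right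
        have : ¬ (W : ℤ) * b' + (t'.val : ℤ) ≤ N := fun h => hin ⟨hlow, h⟩
        constructor <;> linarith
      · left
        constructor <;> linarith
  have hcard := (card_le_card hsub).trans ((card_union_le _ _).trans (Nat.add_le_add_left (card_union_le _ _) _))
  rw [card_image_of_injective _ hinj, Int.card_Icc, Int.card_Icc] at hcard
  have hc1 : (-(N : ℤ) - 1 + 1 - (-(N : ℤ) - 2 * W)).toNat = 2 * W := by omega
  have hc2 : ((N : ℤ) + 2 * W + 1 - ((N : ℤ) + 1)).toNat = 2 * W := by omega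
  rw [hc1, hc2] at hcard
  have hcardr : (#Pr : ℝ) ≤ #Af + 4 * W := by
    have : #Pr ≤ #Af + 4 * W := by omega
    exact_mod_cast this
  have h4W : 4 * (W : ℝ) ≤ t / 1024 * N := by
    rw [div_le_iff₀ ht] at hN3
    linarith
  have hgoal : t / 1024 * N ≤ #Af := by
    have : t / 512 * N = t / 1024 * N + t / 1024 * N := by ring
    linarith
  exact hgoal

end Pool.Agent.W5h22.DS
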