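import Mathlib
import Pool.Agent.W5h22.DS.E

set_option autoImplicit false

/-! Dense sets of primes: the shifts with many values in the set. -/

namespace Pool.Agent.W5h22.DS
open Finset Filter Topology
open Pool.Agent.Helper602.MK
open Pool.Agent.H373R2.NB hiding Ph
open Pool.Agent.W5h22.PV
open Pool.Agent.W5h22.RB

theorem dense (K : ℕ) : ∃ c : ℝ, 0 < c ∧ ∀ β : ℝ, 0 < β → ∀ᶠ N : ℕ in atTop, ∀ P : Set ℕ,
    β * (N / Real.log N) ≤ #(PN P N) →
      c * β ^ ((((K + 1 : ℕ)) : ℝ)⁻¹) * N ≤ #((Icc (-(N : ℤ)) N).filter (fun a =>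
        c * β * (Real.sqrt N / Real.log N) ≤ ∑ n ∈ Ioc (Nat.sqrt N / 2) (Nat.sqrt N), pw (ind P N) (a + (n : ℤ) ^ 2))) := by
  obtain ⟨C, hC, hmany⟩ := many
  obtain ⟨c₁, hc₁, hm⟩ := hmany K
  set κ : ℝ := (((K + 1 : ℕ)) : ℝ)⁻¹ with hκ
  have hc1κ : 0 < c₁ ^ κ := Real.rpow_pos_of_pos hc₁ _
  refine ⟨min (1 / 192) (c₁ ^ κ / 2048), by positivity, ?_⟩
  intro β hβ
  set t : ℝ := (c₁ * β) ^ κ with ht
  have hcβ : 0 < c₁ * β := by positivity
  have ht0 : 0 < t := Real.rpow_pos_of_pos hcβ _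
  have htp : t ^ (K + 1) ≤ c₁ * β := by
    rw [ht, hκ, Real.rpow_inv_natCast_pow hcβ.le (by omega)]
  set ε₁ : ℝ := min (β / 8) (β * t / (192 * 2048)) with hε₁
  have hε₁0 : 0 < ε₁ := by positivity
  have hε1 : ε₁ ≤ β / 8 := min_le_left _ _
  have hε2 : ε₁ ≤ β * t / (192 * 2048) := min_le_right _ _
  obtain ⟨W, hW, τ, hτ, htr⟩ := transfer1 64 (by norm_num) ε₁ hε₁0
  filter_upwards [htr, hm β hβ τ hτ W hW t ht0 htp, eventually_ge_atTop 16] with N htrN hmN hN16
  intro P hP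
  classical
  set x := Nat.sqrt N with hx
  set y := x / 2 with hy
  set J := ⌊τ * N / W⌋₊ with hJ
  set f := ind P N with hf
  set S' : ℝ := (#(PN P N) : ℝ) with hS'
  have hNr : (16 : ℝ) ≤ N := by exact_mod_cast hN16
  have hN0 : (0 : ℝ) < N := by linarith
  have hlN : 0 < Real.log N := Real.log_pos (by linarith)
  have hS'0 : 0 < S' := lt_of_lt_of_le (by positivity) hP
  have hx1 : x ^ 2 ≤ N := Nat.sqrt_le' N
  have hx2 : N < (x + 1) ^ 2 := Nat.lt_succ_sqrt' N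
  have hx4 : 4 ≤ x := by
    rw [hx, Nat.le_sqrt']
    omega
  have hyx : y ≤ x := Nat.div_le_self _ _
  have hy1 : 1 ≤ y := by omega
  have hy2 : y ^ 2 ≤ N := (Nat.pow_le_pow_left hyx 2).trans hx1
  have hNx : N ≤ 64 * x ^ 2 := by nlinarith
  have hNy : N ≤ 64 * y ^ 2 := by
    have h1 : x + 1 ≤ 8 * y := by omega
    have h2 := Nat.pow_le_pow_left h1 2
    nlinarith
  have hx0 : (0 : ℝ) < x := by exact_mod_cast (by omega : 0 < x)
  have hyr : (y : ℝ) ≤ x := by exact_mod_cast hyx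
  set RI : ℤ → ℝ := fun a => ∑ n ∈ Ioc y x, pw f (a + (n : ℤ) ^ 2) with hRI
  set Tf : ℤ → ℝ := fun a => TI f (3 * N) W J y x a with hTf
  have hfabs : ∀ p, |f p| ≤ 1 := fun p => by
    rw [abs_of_nonneg (ind_nonneg _ _ _)]
    exact ind_le _ _ _
  have hX := htrN x (by omega) hx1 hNx f hfabs 1 (Or.inl rfl)
  have hY := htrN y hy1 hy2 hNy f hfabs 1 (Or.inl rfl)
  simp only [one_mul] at hX hY
  have hdiff : ∑ a ∈ Icc (-(N : ℤ)) N, |RI a - Tf a| ≤ 2 * ε₁ * x * (N / Real.log N) := by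
    have hpt : ∀ a ∈ Icc (-(N : ℤ)) N, |RI a - Tf a| ≤
        |∑ n ∈ Icc 1 x, pw f (a + (n : ℤ) ^ 2) - ∑ n ∈ Icc 1 x, u f (3 * N) W J (a + (n : ℤ) ^ 2)| +
        |∑ n ∈ Icc 1 y, pw f (a + (n : ℤ) ^ 2) - ∑ n ∈ Icc 1 y, u f (3 * N) W J (a + (n : ℤ) ^ 2)| := by
      intro a _
      have h1 : RI a - Tf a = (∑ n ∈ Icc 1 x, pw f (a + (n : ℤ) ^ 2) - ∑ n ∈ Icc 1 x, u f (3 * N) W J (a + (n : ℤ) ^ 2)) -
          (∑ n ∈ Icc 1 y, pw f (a + (n : ℤ) ^ 2) - ∑ n ∈ Icc 1 y, u f (3 * N) W J (a + (n : ℤ) ^ 2)) := by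
        simp only [hRI, hTf]
        unfold TI
        rw [Ioc_sub (fun n => pw f (a + (n : ℤ) ^ 2)) y x hyx, Ioc_sub (fun n => u f (3 * N) W J (a + (n : ℤ) ^ 2)) y x hyx]
        ring
      rw [h1]
      exact abs_sub _ _
    refine (sum_le_sum hpt).trans ?_
    rw [sum_add_distrib]
    have h2 : ε₁ * N * ((y : ℝ) / Real.log N) ≤ ε₁ * N * ((x : ℝ) / Real.log N) :=
      mul_le_mul_of_nonneg_left (div_le_div_of_nonneg_right hyr hlN.le) (by positivity)
    calc _ ≤ ε₁ * N * ((x : ℝ) / Real.log N) + ε₁ * N * ((y : ℝ) / Real.log N) := add_le_add hX hY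
      _ ≤ ε₁ * N * ((x : ℝ) / Real.log N) + ε₁ * N * ((x : ℝ) / Real.log N) := by linarith
      _ = _ := by ring
  have hNS : N / Real.log N ≤ S' / β := by
    rw [le_div_iff₀ hβ]
    linarith
  -- the first moment of the averages
  have hfirst : (x : ℝ) / 4 * S' ≤ ∑ a ∈ Icc (-(N : ℤ)) N, Tf a := by
    have h1 := first_moment P N y x hx1
    have h2 : ∑ a ∈ Icc (-(N : ℤ)) N, RI a ≤ ∑ a ∈ Icc (-(N : ℤ)) N, Tf a + ∑ a ∈ Icc (-(N : ℤ)) N, |RI a - Tf a| := by
      rw [← sum_add_distrib]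
      apply sum_le_sum
      intro a _
      have := le_abs_self (RI a - Tf a)
      linarith
    have h3 : (x : ℝ) / 2 ≤ ((x - y : ℕ) : ℝ) := by
      have : x ≤ 2 * (x - y) := by omega
      have h4 : (x : ℝ) ≤ 2 * ((x - y : ℕ) : ℝ) := by exact_mod_cast this
      linarith
    have h4 : 2 * ε₁ * x * (N / Real.log N) ≤ x / 4 * S' := by
      calc 2 * ε₁ * x * (N / Real.log N) ≤ 2 * ε₁ * x * (S' / β) := mul_le_mul_of_nonneg_left hNS (by positivity)
        _ ≤ 2 * (β / 8) * x * (S' / β) := by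
            apply mul_le_mul_of_nonneg_right _ (by positivity)
            apply mul_le_mul_of_nonneg_right _ hx0.le
            linarith
        _ = _ := by field_simp; norm_num
    have h5 : (x : ℝ) / 2 * S' ≤ ((x - y : ℕ) : ℝ) * S' := mul_le_mul_of_nonneg_right h3 hS'0.le
    have h6 : ((x - y : ℕ) : ℝ) * S' ≤ ∑ a ∈ Icc (-(N : ℤ)) N, RI a := h1
    linarith
  have hG := hmN P hP hfirst
  set thr : ℝ := (x : ℝ) * S' / (48 * N) with hthr
  have hthr0 : 0 < thr := by positivity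
  set G := (Icc (-(N : ℤ)) N).filter (fun a => thr ≤ Tf a) with hGd
  set Bd := (Icc (-(N : ℤ)) N).filter (fun a => thr / 2 < |RI a - Tf a|) with hBd
  have hBdc : (#Bd : ℝ) ≤ t / 2048 * N := by
    have h1 : #Bd * (thr / 2) ≤ 2 * ε₁ * x * (N / Real.log N) := by
      calc #Bd * (thr / 2) = ∑ _a ∈ Bd, thr / 2 := by rw [sum_const, nsmul_eq_mul]
        _ ≤ ∑ a ∈ Bd, |RI a - Tf a| := by
            apply sum_le_sum
            intro a ha
            rw [hBd, mem_filter] at ha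
            exact ha.2.le
        _ ≤ ∑ a ∈ Icc (-(N : ℤ)) N, |RI a - Tf a| := sum_le_sum_of_subset_of_nonneg (filter_subset _ _) fun a _ _ => abs_nonneg _
        _ ≤ _ := hdiff
    have h2 : 2 * ε₁ * x * (N / Real.log N) ≤ t / 2048 * N * (thr / 2) := by
      calc 2 * ε₁ * x * (N / Real.log N) ≤ 2 * ε₁ * x * (S' / β) := mul_le_mul_of_nonneg_left hNS (by positivity)
        _ ≤ 2 * (β * t / (192 * 2048)) * x * (S' / β) := by
            apply mul_le_mul_of_nonneg_right _ (by positivity)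
            apply mul_le_mul_of_nonneg_right _ hx0.le
            linarith
        _ = t / 2048 * N * (thr / 2) := by
            rw [hthr]
            field_simp
            norm_num
    exact le_of_mul_le_mul_right (h1.trans h2) (by positivity)
  have hsub : G \ Bd ⊆ (Icc (-(N : ℤ)) N).filter (fun a => thr / 2 ≤ RI a) := by
    intro a ha
    rw [Finset.mem_sdiff, hGd, hBd, mem_filter, mem_filter] at ha
    rw [mem_filter]
    refine ⟨ha.1.1, ?_⟩
    have h1 : ¬ thr / 2 < |RI a - Tf a| := fun h => ha.2 ⟨ha.1.1, h⟩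
    rw [not_lt] at h1
    have h2 := (abs_le.1 h1).1
    linarith [ha.1.2]
  have hcard : t / 2048 * N ≤ #((Icc (-(N : ℤ)) N).filter (fun a => thr / 2 ≤ RI a)) := by
    have h1 : #G ≤ #(G \ Bd) + #Bd := by
      have := card_le_card (show G ⊆ (G \ Bd) ∪ Bd by
        intro a ha
        by_cases h : a ∈ Bd
        · exact mem_union_right _ h
        · exact mem_union_left _ (Finset.mem_sdiff.2 ⟨ha, h⟩))
      exact this.trans (card_union_le _ _)
    have h2 := card_le_card hsub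
    have h3 : (#G : ℝ) ≤ #((Icc (-(N : ℤ)) N).filter (fun a => thr / 2 ≤ RI a)) + #Bd := by
      exact_mod_cast h1.trans (Nat.add_le_add_right h2 _)
    have h4 : t / 1024 * N ≤ #G := hG
    have h5 : t / 1024 * N = t / 2048 * N + t / 2048 * N := by ring
    linarith
  -- the constants
  have hsqrt : Real.sqrt N ≤ 2 * x := by
    rw [Real.sqrt_le_left (by positivity)]
    have : N ≤ (2 * x) ^ 2 := by nlinarith
    exact_mod_cast this
  have hthr2 : min (1 / 192) (c₁ ^ κ / 2048) * β * (Real.sqrt N / Real.log N) ≤ thr / 2 := by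
    calc min (1 / 192) (c₁ ^ κ / 2048) * β * (Real.sqrt N / Real.log N) ≤ 1 / 192 * β * ((2 * x) / Real.log N) := by
          apply mul_le_mul
          · exact mul_le_mul_of_nonneg_right (min_le_left _ _) hβ.le
          · exact div_le_div_of_nonneg_right hsqrt hlN.le
          · positivity
          · positivity
      _ = (x / (96 * N)) * (β * (N / Real.log N)) := by field_simp; norm_num
      _ ≤ (x / (96 * N)) * S' := mul_le_mul_of_nonneg_left hP (by positivity)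
      _ = thr / 2 := by rw [hthr]; ring
  have hc2 : min (1 / 192) (c₁ ^ κ / 2048) * β ^ κ * N ≤ t / 2048 * N := by
    apply mul_le_mul_of_nonneg_right _ hN0.le
    calc min (1 / 192) (c₁ ^ κ / 2048) * β ^ κ ≤ (c₁ ^ κ / 2048) * β ^ κ := mul_le_mul_of_nonneg_right (min_le_right _ _) (Real.rpow_nonneg hβ.le _)
      _ = t / 2048 := by rw [ht, Real.mul_rpow hc₁.le hβ.le]; ring
  refine hc2.trans (hcard.trans ?_)
  have h6 : (Icc (-(N : ℤ)) N).filter (fun a => thr / 2 ≤ RI a) ⊆ (Icc (-(N : ℤ)) N).filter (fun a =>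
      min (1 / 192) (c₁ ^ κ / 2048) * β * (Real.sqrt N / Real.log N) ≤ RI a) := by
    intro a ha
    rw [mem_filter] at *
    exact ⟨ha.1, hthr2.trans ha.2⟩
  exact_mod_cast card_le_card h6

end Pool.Agent.W5h22.DS
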